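import Pool.Agent.MP_d42cd1_nt.H97.Two

namespace Pool.Agent.MP_d42cd1_nt.H97

def go : ℕ → List ℕ → List ℕ
  | _, [] => []
  | s, y :: ys => ((s + y) % 9) :: ((s + 2 * y) % 9) :: go ((s + 2 * y) % 9) ys

def dup : List Bool → List Bool
  | [] => []
  | t :: ts => t :: (!t) :: dup ts

def win (good : ℕ → Bool) : ℕ → List ℕ → List Bool → Bool
  | _, _, [] => false
  | s, [], t :: _ => t && good s
  | s, y :: ys, t :: ts => (t && good s) || win good ((s + 2 * y) % 9) ys ts

def dfs (good : ℕ → Bool) : ℕ → List ℕ → List Bool → Bool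
  | 0, _, _ => false
  | h + 1, L, T => [0, 1, 2, 3, 4, 5, 6, 7, 8].all
      (fun b => win good b L T || dfs good h (b :: go b L) (dup T))

def goodE (s : ℕ) : Bool := Nat.beq s 3 || Nat.beq s 6

def goodO (s : ℕ) : Bool := !(Nat.beq (s % 3) 0)

lemma chkE : [true, false].all (fun a => [true, false].all
    (fun b => dfs goodE 6 [1] [a, b])) = true := by decide +kernel

lemma chkO : [true, false].all (fun a => [true, false].all
    (fun b => dfs goodO 6 [1] [a, b])) = true := by decide +kernel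

section sound

variable (G : ℕ → ℕ → ℕ) (T : ℕ → ℕ → Bool) (D : ℕ)

lemma go_eq (d : ℕ)
    (h0 : ∀ k, 1 ≤ k → k < 2 ^ (d + 1) → G (d + 1) (2 * k) = (G (d + 1) (2 * k - 1) + G d k) % 9)
    (h1 : ∀ k, 1 ≤ k → k < 2 ^ (d + 1) → G (d + 1) (2 * k + 1) = (G (d + 1) (2 * k) + G d k) % 9)
    (n : ℕ) : ∀ k, 1 ≤ k → k + n ≤ 2 ^ (d + 1) →
      go (G (d + 1) (2 * k - 1)) ((List.range' k n).map (G d))
        = (List.range' (2 * k) (2 * n)).map (G (d + 1)) := by
  induction n with
  | zero => intro k _ _; simp [go]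
  | succ n ih =>
    intro k hk hn
    have e : 2 * (n + 1) = 2 * n + 1 + 1 := by ring
    have a0 := h0 k hk (by omega)
    have a1 := h1 k hk (by omega)
    have a2 : (G (d + 1) (2 * k - 1) + 2 * G d k) % 9 = G (d + 1) (2 * (k + 1) - 1) := by
      rw [show 2 * (k + 1) - 1 = 2 * k + 1 by omega]; omega
    rw [e, List.range'_succ, List.range'_succ, List.range'_succ]
    simp only [List.map_cons, go]
    rw [a2, ih (k + 1) (by omega) (by omega), ← a0, show 2 * (k + 1) - 1 = 2 * k + 1 by omega,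
      show 2 * (k + 1) = 2 * k + 1 + 1 by ring]

lemma dup_eq (d : ℕ) (t0 : ∀ k, T (d + 1) (2 * k) = T d k)
    (t1 : ∀ k, T (d + 1) (2 * k + 1) = !(T d k)) (n : ℕ) : ∀ k,
      dup ((List.range' k n).map (T d)) = (List.range' (2 * k) (2 * n)).map (T (d + 1)) := by
  induction n with
  | zero => intro k; simp [dup]
  | succ n ih =>
    intro k
    have e : 2 * (n + 1) = 2 * n + 1 + 1 := by ring
    rw [e, List.range'_succ, List.range'_succ, List.range'_succ]
    simp only [List.map_cons, dup]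
    rw [ih (k + 1), t0, t1, show 2 * (k + 1) = 2 * k + 1 + 1 by ring]

lemma win_sound (good : ℕ → Bool) (d : ℕ)
    (h0 : ∀ k, 1 ≤ k → k < 2 ^ (d + 1) → G (d + 1) (2 * k) = (G (d + 1) (2 * k - 1) + G d k) % 9)
    (h1 : ∀ k, 1 ≤ k → k < 2 ^ (d + 1) → G (d + 1) (2 * k + 1) = (G (d + 1) (2 * k) + G d k) % 9)
    (n : ℕ) : ∀ k, k + n + 1 ≤ 2 ^ (d + 1) →
      win good (G (d + 1) (2 * k + 1)) ((List.range' (k + 1) n).map (G d))
        ((List.range' k (n + 1)).map (T d)) = true →
      ∃ k', k' < 2 ^ (d + 1) ∧ T d k' = true ∧ good (G (d + 1) (2 * k' + 1)) = true := by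
  induction n with
  | zero =>
    intro k hk h
    simp only [List.range'_zero, List.map_nil, zero_add, List.range'_one, List.map_cons, win,
      Bool.and_eq_true] at h
    exact ⟨k, by omega, h⟩
  | succ n ih =>
    intro k hk h
    rw [List.range'_succ (s := k + 1), List.range'_succ (s := k)] at h
    simp only [List.map_cons, win, Bool.or_eq_true, Bool.and_eq_true] at h
    rcases h with h | h
    · exact ⟨k, by omega, h⟩
    · have a0 := h0 (k + 1) (by omega) (by omega)
      have a1 := h1 (k + 1) (by omega) (by omega)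
      rw [show 2 * (k + 1) - 1 = 2 * k + 1 by omega] at a0
      have a2 : (G (d + 1) (2 * k + 1) + 2 * G d (k + 1)) % 9 = G (d + 1) (2 * (k + 1) + 1) := by
        omega
      rw [a2] at h
      exact ih (k + 1) (by omega) h

lemma dfs_sound (good : ℕ → Bool)
    (hlt : ∀ d k, G d k < 9)
    (h0 : ∀ d < D, ∀ k, 1 ≤ k → k < 2 ^ (d + 1) →
      G (d + 1) (2 * k) = (G (d + 1) (2 * k - 1) + G d k) % 9)
    (h1 : ∀ d < D, ∀ k, 1 ≤ k → k < 2 ^ (d + 1) →
      G (d + 1) (2 * k + 1) = (G (d + 1) (2 * k) + G d k) % 9)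
    (t0 : ∀ d k, T (d + 1) (2 * k) = T d k) (t1 : ∀ d k, T (d + 1) (2 * k + 1) = !(T d k))
    (h : ℕ) : ∀ d, d + h ≤ D →
      dfs good h ((List.range' 1 (2 ^ (d + 1) - 1)).map (G d))
        ((List.range' 0 (2 ^ (d + 1))).map (T d)) = true →
      ∃ d' < D, ∃ k', k' < 2 ^ (d' + 1) ∧ T d' k' = true ∧ good (G (d' + 1) (2 * k' + 1)) = true := by
  induction h with
  | zero => intro d _ hh; simp [dfs] at hh
  | succ h ih =>
    intro d hd hh
    have hp : 1 ≤ 2 ^ (d + 1) := Nat.one_le_two_pow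
    rw [dfs, List.all_eq_true] at hh
    have hb := hh (G (d + 1) 1) (by
      have := hlt (d + 1) 1
      generalize G (d + 1) 1 = b at this
      interval_cases b <;> simp)
    rw [Bool.or_eq_true] at hb
    rcases hb with hb | hb
    · refine ⟨d, by omega, win_sound G T good d (h0 d (by omega)) (h1 d (by omega))
        (2 ^ (d + 1) - 1) 0 (by omega) ?_⟩
      rw [show 2 ^ (d + 1) - 1 + 1 = 2 ^ (d + 1) by omega]
      exact hb
    · refine ih (d + 1) (by omega) ?_
      have g1 := go_eq G d (h0 d (by omega)) (h1 d (by omega)) (2 ^ (d + 1) - 1) 1 le_rfl (by omega)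
      have g2 := dup_eq T d (t0 d) (t1 d) (2 ^ (d + 1)) 0
      have e1 : 2 ^ (d + 1 + 1) - 1 = 2 * (2 ^ (d + 1) - 1) + 1 := by rw [pow_succ 2 (d + 1)]; omega
      have e2 : 2 ^ (d + 1 + 1) = 2 * 2 ^ (d + 1) := by rw [pow_succ 2 (d + 1)]; omega
      rw [e1, List.range'_succ, List.map_cons, e2]
      simp only [mul_one, mul_zero] at g1 g2
      rw [show (1 : ℕ) + 1 = 2 from rfl, ← g1, ← g2]
      exact hb

end sound

end Pool.Agent.MP_d42cd1_nt.H97
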