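import Mathlib

namespace Pool.Agent.MP_d42cd1_nt.H97

/-- the number of partitions of `n` all of whose parts are powers of two -/
noncomputable def binPart (n : ℕ) : ℕ :=
  Nat.card {P : Nat.Partition n // ∀ i ∈ P.parts, ∃ k : ℕ, i = 2 ^ k}

end Pool.Agent.MP_d42cd1_nt.H97
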