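import Pool.Agent.MP_d42cd1_nt.H97.Win

namespace Pool.Agent.MP_d42cd1_nt.H97

open Polynomial Finset

lemma down_dvd {q : ℤ} {o o' I : ℕ} (hall : ∀ y, o ≤ y → y ≤ o' → q ∣ A y)
    (ho : ∀ j ≤ I, q ∣ A (2 ^ j * o)) :
    ∀ j ≤ I, ∀ y, 2 ^ j * o ≤ y → y ≤ 2 ^ j * o' → q ∣ A y := by
  intro j
  induction j with
  | zero => intro _ y h1 h2; exact hall y (by simpa using h1) (by simpa using h2)
  | succ j ih =>
    intro hj y h1 h2
    obtain ⟨n, rfl⟩ := Nat.exists_eq_add_of_le h1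
    have e1 : 2 ^ (j + 1) * o = 2 * (2 ^ j * o) := by ring
    have e2 : 2 ^ (j + 1) * o' = 2 * (2 ^ j * o') := by ring
    induction n with
    | zero => exact ho _ hj
    | succ n ihn =>
      rw [← add_assoc, A_succ]
      exact dvd_add (ihn (by omega) (by omega)) (ih (by omega) _ (by omega) (by omega))

lemma poly_step {R : Type*} [CommRing R] (F F' : ℕ → R) (L : ℕ)
    (hr : ∀ n < 2 * L, F' (n + 1) = F' n + F ((n + 1) / 2)) : ∀ k ≤ L,
    (1 - X) * ∑ n ∈ range (2 * k + 1), C (F' n) * X ^ n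
      = (1 + X) * (∑ i ∈ range (k + 1), C (F i) * (X ^ 2) ^ i) - C (F 0) + C (F' 0)
        - (C (F k) + C (F' (2 * k))) * X ^ (2 * k + 1) := by
  intro k
  induction k with
  | zero => intro _; simp; ring
  | succ k ih =>
    intro hk
    have h1 := hr (2 * k) (by omega)
    have h2 := hr (2 * k + 1) (by omega)
    rw [show (2 * k + 1) / 2 = k by omega] at h1
    rw [show (2 * k + 1 + 1) / 2 = k + 1 by omega] at h2
    rw [show 2 * (k + 1) + 1 = 2 * k + 1 + 1 + 1 by ring, sum_range_succ, sum_range_succ,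
      sum_range_succ _ (k + 1), mul_add, mul_add, ih (by omega),
      show 2 * (k + 1) = 2 * k + 1 + 1 by ring, h2, h1]
    simp only [map_add]
    ring

lemma two_ne : (1 + 1 : ZMod 3) ≠ 0 := by decide

lemma dvd_of_expand (k : ℕ) : ∀ U D : (ZMod 3)[X], U.eval 1 ≠ 0 →
    (X - 1) ^ k ∣ U * D.comp (X ^ 2) → (X - 1) ^ k ∣ D := by
  have : Fact (Nat.Prime 3) := ⟨Nat.prime_three⟩
  induction k with
  | zero => intro U D _ _; simp
  | succ k ih =>
    intro U D hU h
    have h1 : (U * D.comp (X ^ 2)).eval 1 = 0 := by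
      obtain ⟨W, hW⟩ := h
      rw [hW]; simp
    have h2 : D.eval 1 = 0 := by
      simp only [eval_mul, eval_comp, eval_pow, eval_X, one_pow, mul_eq_zero] at h1
      exact h1.resolve_left hU
    obtain ⟨D', rfl⟩ : X - C 1 ∣ D := dvd_iff_isRoot.2 h2
    have hne : (X - 1 : (ZMod 3)[X]) ≠ 0 := by simpa using X_sub_C_ne_zero (1 : ZMod 3)
    have e : U * ((X - C 1) * D').comp (X ^ 2) = (X - 1) * ((U * (X + 1)) * D'.comp (X ^ 2)) := by
      simp only [mul_comp, sub_comp, X_comp, map_one, one_comp]; ring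
    rw [e, pow_succ', mul_dvd_mul_iff_left hne] at h
    rw [pow_succ', map_one]
    refine mul_dvd_mul_left _ (ih (U * (X + 1)) D' ?_ h)
    simp only [eval_mul, eval_add, eval_X, eval_one]
    exact mul_ne_zero hU two_ne

lemma gap_lin {o o' v I : ℕ} (hlt : o ≤ o')
    (hall : ∀ y, o ≤ y → y ≤ o' → (3 : ℤ) ^ v ∣ A y)
    (hx : ∃ y, o ≤ y ∧ y ≤ o' ∧ ¬ (3 : ℤ) ^ (v + 1) ∣ A y)
    (ho : ∀ j ≤ I, (3 : ℤ) ^ (v + 1) ∣ A (2 ^ j * o))
    (ho' : ∀ j ≤ I, (3 : ℤ) ^ (v + 1) ∣ A (2 ^ j * o')) : I ≤ o' - o := by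
  have : Fact (Nat.Prime 3) := ⟨Nat.prime_three⟩
  obtain ⟨g, rfl⟩ := Nat.exists_eq_add_of_le hlt
  have hq : (3 : ℤ) ^ v ≠ 0 := by positivity
  have hd := down_dvd (I := I) hall (fun j hj => (pow_dvd_pow 3 (by omega)).trans (ho j hj))
  set f : ℕ → ZMod 3 := fun n => ((A n / 3 ^ v : ℤ) : ZMod 3) with hf
  have hz : ∀ n, (3 : ℤ) ^ (v + 1) ∣ A n → f n = 0 := by
    rintro n ⟨c, hc⟩
    simp only [hf]
    rw [hc, pow_succ, mul_assoc, Int.mul_ediv_cancel_left _ hq]
    exact (ZMod.intCast_zmod_eq_zero_iff_dvd _ 3).2 ⟨c, rfl⟩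
  set D : ℕ → (ZMod 3)[X] := fun j => ∑ n ∈ range (2 ^ j * g + 1), C (f (2 ^ j * o + n)) * X ^ n
    with hD
  have hstep : ∀ j < I, (1 - X) * D (j + 1) = (1 + X) * (D j).comp (X ^ 2) := by
    intro j hj
    have e1 : 2 ^ (j + 1) * o = 2 * (2 ^ j * o) := by ring
    have e2 : 2 ^ (j + 1) * g = 2 * (2 ^ j * g) := by ring
    have e3 : 2 ^ j * (o + g) = 2 ^ j * o + 2 ^ j * g := by ring
    have e4 : 2 ^ (j + 1) * (o + g) = 2 ^ (j + 1) * o + 2 * (2 ^ j * g) := by ring
    have := poly_step (fun k => f (2 ^ j * o + k)) (fun n => f (2 ^ (j + 1) * o + n)) (2 ^ j * g)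
      (fun n hn => by
        simp only [hf]
        rw [← add_assoc, A_succ, show (2 ^ (j + 1) * o + n + 1) / 2 = 2 ^ j * o + (n + 1) / 2 by omega,
          Int.add_ediv_of_dvd_right (hd j (by omega) _ (by omega) (by omega))]
        push_cast; rfl) (2 ^ j * g) le_rfl
    simp only [add_zero] at this
    rw [hz _ (ho j (by omega)), hz _ (ho (j + 1) (by omega)), ← e3, ← e4, hz _ (ho' j (by omega)),
      hz _ (ho' (j + 1) (by omega))] at this
    simp only [hD]
    rw [e2, this]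
    simp [Polynomial.sum_comp]
  have hdv : ∀ i ≤ I, (X - 1) ^ i ∣ D (I - i) := by
    intro i
    induction i with
    | zero => intro _; simp
    | succ i ih =>
      intro hi
      have h1 := ih (by omega)
      have h2 := hstep (I - (i + 1)) (by omega)
      rw [show I - (i + 1) + 1 = I - i by omega] at h2
      refine dvd_of_expand (i + 1) (1 + X) _ (by simp only [eval_add, eval_one, eval_X]; exact two_ne) ?_
      rw [← h2, pow_succ']
      exact mul_dvd_mul (by rw [← dvd_neg]; simp) h1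
  have h0 := hdv I le_rfl
  rw [Nat.sub_self] at h0
  have hcoef : ∀ n ≤ g, (D 0).coeff n = f (o + n) := by
    intro n hn
    simp only [hD, pow_zero, one_mul, finset_sum_coeff, coeff_C_mul, coeff_X_pow]
    rw [sum_eq_single n]
    · simp
    · intro b _ hb; simp [Ne.symm hb]
    · intro hn'; exact absurd (mem_range.2 (by omega)) hn'
  have hne : D 0 ≠ 0 := by
    obtain ⟨y, h1, h2, h3⟩ := hx
    obtain ⟨n, rfl⟩ := Nat.exists_eq_add_of_le h1
    intro h
    have h4 := hcoef n (by omega)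
    rw [h, coeff_zero] at h4
    obtain ⟨c, hc⟩ := (ZMod.intCast_zmod_eq_zero_iff_dvd _ 3).1 h4.symm
    refine h3 ⟨c, ?_⟩
    rw [← Int.mul_ediv_cancel' (hall _ h1 h2), hc]; push_cast; ring
  have hdeg : (D 0).natDegree ≤ g := by
    simp only [hD, pow_zero, one_mul]
    refine natDegree_sum_le_of_forall_le _ _ (fun n hn => ?_)
    refine (natDegree_C_mul_X_pow_le _ _).trans ?_
    have := mem_range.1 hn; omega
  have h5 := natDegree_le_of_dvd h0 hne
  have h6 : ((X - 1 : (ZMod 3)[X]) ^ I).natDegree = I := by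
    have := natDegree_X_sub_C (x := (1 : ZMod 3))
    rw [map_one] at this
    rw [natDegree_pow, this, mul_one]
  omega

end Pool.Agent.MP_d42cd1_nt.H97
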