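import Pool.Agent.MP_d42cd1_nt.H97.Lin

namespace Pool.Agent.MP_d42cd1_nt.H97

section


/-- `aa` modulo `p` -/
def ff (p n : ℕ) : ZMod p := (aa n : ZMod p)

variable {p : ℕ}

lemma ff_zero : ff p 0 = 1 := by simp [ff, aa_zero]

lemma ff_succ (n : ℕ) : ff p (n + 1) = ff p n + ff p ((n + 1) / 2) := by
  simp [ff, aa_succ]

lemma ff_one : ff p 1 = 2 := by
  have := ff_succ (p := p) 0
  simp only [zero_add, Nat.reduceDiv, ff_zero] at this
  rw [this]; norm_num

lemma ff_two : ff p 2 = 4 := by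
  have := ff_succ (p := p) 1
  simp only [Nat.reduceAdd, Nat.reduceDiv, ff_one] at this
  rw [this]; norm_num

lemma ff_pred (k : ℕ) (hk : 1 ≤ k) : ff p k = ff p (k - 1) + ff p (k / 2) := by
  have := ff_succ (p := p) (k - 1)
  rwa [show k - 1 + 1 = k by omega] at this

def Lv (p i n : ℕ) : Prop := ∀ j ≤ i, ff p (2 ^ j * n) = 0

def Is (p o : ℕ) : Prop := ff p (o - 1) ≠ 0 ∧ ff p (o + 1) ≠ 0

lemma Lv.mono {i i' n : ℕ} (h : Lv p i n) (hi : i' ≤ i) : Lv p i' n :=
  fun j hj => h j (hj.trans hi)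

lemma Lv.zero {i n : ℕ} (h : Lv p i n) : ff p n = 0 := by simpa using h 0 (Nat.zero_le _)

lemma const_of_zero {a b : ℕ} (h : ∀ y, a < y → y < b → ff p y = 0) (x : ℕ) (hx : 2 * a < x)
    (n : ℕ) : x + n < 2 * b → ff p (x + n) = ff p x := by
  induction n with
  | zero => intro _; rfl
  | succ n ih =>
    intro hn
    rw [← add_assoc, ff_succ, h ((x + n + 1) / 2) (by omega) (by omega), add_zero, ih (by omega)]

lemma const_of_zero' {a b : ℕ} (h : ∀ y, a < y → y < b → ff p y = 0) (x y : ℕ) (hx : 2 * a < x)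
    (hx' : x < 2 * b) (hy : 2 * a < y) (hy' : y < 2 * b) : ff p x = ff p y := by
  rcases le_total x y with hh | hh
  · obtain ⟨n, rfl⟩ := Nat.exists_eq_add_of_le hh
    exact (const_of_zero h x hx n hy').symm
  · obtain ⟨n, rfl⟩ := Nat.exists_eq_add_of_le hh
    exact const_of_zero h y hy n hx'

lemma Lv.win {s o : ℕ} (ho : 1 ≤ o) (h : Lv p s o) :
    ∀ y, 2 ^ s * (o - 1) < y → y < 2 ^ s * (o + 1) → ff p y = 0 := by
  induction s with
  | zero =>
    intro y h1 h2
    obtain rfl : y = o := by simp only [pow_zero, one_mul] at h1 h2; omega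
    exact h.zero
  | succ s ih =>
    intro y h1 h2
    have hp : 0 < 2 ^ (s + 1) := by positivity
    have e1 : 2 ^ (s + 1) * (o - 1) = 2 * (2 ^ s * (o - 1)) := by ring
    have e2 : 2 ^ (s + 1) * (o + 1) = 2 * (2 ^ s * (o + 1)) := by ring
    have a1 := Nat.mul_lt_mul_of_pos_left (show o - 1 < o by omega) hp
    have a2 := Nat.mul_lt_mul_of_pos_left (show o < o + 1 by omega) hp
    rw [const_of_zero' (ih (h.mono (by omega))) y (2 ^ (s + 1) * o) (by omega) (by omega)
      (by omega) (by omega)]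
    exact h _ le_rfl

lemma Lv.const {s o : ℕ} (ho : 1 ≤ o) (h : Lv p s o) (y : ℕ) (h1 : 2 ^ (s + 1) * (o - 1) < y)
    (h2 : y < 2 ^ (s + 1) * (o + 1)) : ff p y = ff p (2 ^ (s + 1) * o) := by
  have hp : 0 < 2 ^ (s + 1) := by positivity
  have e1 : 2 ^ (s + 1) * (o - 1) = 2 * (2 ^ s * (o - 1)) := by ring
  have e2 : 2 ^ (s + 1) * (o + 1) = 2 * (2 ^ s * (o + 1)) := by ring
  have a1 := Nat.mul_lt_mul_of_pos_left (show o - 1 < o by omega) hp
  have a2 := Nat.mul_lt_mul_of_pos_left (show o < o + 1 by omega) hp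
  exact const_of_zero' (h.win ho) y (2 ^ (s + 1) * o) (by omega) (by omega) (by omega) (by omega)

lemma Lv.succ {s o : ℕ} (h : Lv p s o) (h' : ff p (2 ^ (s + 1) * o) = 0) : Lv p (s + 1) o := by
  intro j hj
  rcases hj.lt_or_eq with hj | rfl
  · exact h j (by omega)
  · exact h'

lemma win_mul {s o m : ℕ} (j : ℕ) (h1 : 2 ^ s * (o - 1) < m) (h2 : m < 2 ^ s * (o + 1)) :
    2 ^ (s + j) * (o - 1) < 2 ^ j * m ∧ 2 ^ j * m < 2 ^ (s + j) * (o + 1) := by
  have hp : 0 < 2 ^ j := by positivity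
  rw [show 2 ^ (s + j) * (o - 1) = 2 ^ j * (2 ^ s * (o - 1)) by ring,
    show 2 ^ (s + j) * (o + 1) = 2 ^ j * (2 ^ s * (o + 1)) by ring]
  exact ⟨Nat.mul_lt_mul_of_pos_left h1 hp, Nat.mul_lt_mul_of_pos_left h2 hp⟩

lemma Lv.up {s o m : ℕ} (ho : 1 ≤ o) (h : Lv p s o) (h1 : 2 ^ s * (o - 1) < m)
    (h2 : m < 2 ^ s * (o + 1)) (i : ℕ) : Lv p i m → Lv p (s + i) o := by
  induction i with
  | zero => intro _; exact h
  | succ i ih =>
    intro hm
    have h3 := ih (hm.mono (by omega))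
    obtain ⟨a1, a2⟩ := win_mul (i + 1) h1 h2
    refine h3.succ ?_
    rw [← h3.const ho (2 ^ (i + 1) * m) a1 a2]
    exact hm _ le_rfl

lemma Lv.down {s o m i : ℕ} (ho : 1 ≤ o) (h : Lv p (s + i) o) (h1 : 2 ^ s * (o - 1) < m)
    (h2 : m < 2 ^ s * (o + 1)) : Lv p i m := by
  intro j hj
  obtain ⟨a1, a2⟩ := win_mul j h1 h2
  exact (h.mono (by omega : s + j ≤ s + i)).win ho _ a1 a2

lemma two_le_of_zero [Fact p.Prime] (h2 : (2 : ZMod p) ≠ 0) {m : ℕ} (h : ff p m = 0) : 2 ≤ m := by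
  by_contra hc
  have : m = 0 ∨ m = 1 := by omega
  rcases this with rfl | rfl
  · rw [ff_zero] at h; exact one_ne_zero h
  · rw [ff_one] at h; exact h2 h

lemma trace0 [Fact p.Prime] (h2 : (2 : ZMod p) ≠ 0) (m : ℕ) : ff p m = 0 →
    ∃ o s, 2 ≤ o ∧ Is p o ∧ Lv p s o ∧ 2 ^ s * (o - 1) < m ∧ m < 2 ^ s * (o + 1) := by
  induction m using Nat.strong_induction_on with
  | _ m ih =>
    intro hm
    have hm2 := two_le_of_zero h2 hm
    by_cases hi : Is p m
    · refine ⟨m, 0, hm2, hi, fun j hj => ?_, by simp only [pow_zero, one_mul]; omega, by simp⟩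
      obtain rfl : j = 0 := by omega
      simpa using hm
    · obtain ⟨m', a1, a2, a3⟩ : ∃ m', ff p m' = 0 ∧ m ≤ 2 * m' + 1 ∧ 2 * m' ≤ m + 1 := by
        unfold Is at hi
        by_cases h1 : ff p (m - 1) = 0
        · have e := ff_pred (p := p) m (by omega)
          rw [hm, h1, zero_add] at e
          exact ⟨m / 2, e.symm, by omega, by omega⟩
        · have h3 : ff p (m + 1) = 0 := by tauto
          have e := ff_succ (p := p) m
          rw [hm, h3, zero_add] at e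
          exact ⟨(m + 1) / 2, e.symm, by omega, by omega⟩
      have hm' := two_le_of_zero h2 a1
      obtain ⟨o, s, b1, b2, b3, b4, b5⟩ := ih m' (by omega) a1
      have c1 : 2 ^ (s + 1) * (o - 1) < m := by
        rw [show 2 ^ (s + 1) * (o - 1) = 2 * (2 ^ s * (o - 1)) by ring]; omega
      have c2 : m < 2 ^ (s + 1) * (o + 1) := by
        rw [show 2 ^ (s + 1) * (o + 1) = 2 * (2 ^ s * (o + 1)) by ring]; omega
      exact ⟨o, s + 1, b1, b2, b3.succ (by rw [← b3.const (by omega) m c1 c2, hm]), c1, c2⟩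

lemma Lv.right {s o : ℕ} (ho : 1 ≤ o) (h : Lv p s o) :
    ∀ n < 2 ^ s, ff p (2 ^ s * (o + 1) + n) = ff p (o + 1) * ff p n := by
  induction s with
  | zero =>
    intro n hn
    obtain rfl : n = 0 := by simpa using hn
    simp [ff_zero]
  | succ s ih =>
    have ih' := ih (h.mono (by omega))
    have hp : 0 < 2 ^ s := by positivity
    have e1 : 2 ^ (s + 1) * (o - 1) = 2 * (2 ^ s * (o - 1)) := by ring
    have e2 : 2 ^ (s + 1) * (o + 1) = 2 * (2 ^ s * (o + 1)) := by ring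
    have e3 : 2 ^ (s + 1) = 2 * 2 ^ s := by ring
    have a1 := Nat.mul_lt_mul_of_pos_left (show o - 1 < o + 1 by omega) hp
    intro n
    induction n with
    | zero =>
      intro _
      rw [add_zero, ff_pred _ (by omega), h.win ho _ (by omega) (by omega), zero_add,
        show 2 ^ (s + 1) * (o + 1) / 2 = 2 ^ s * (o + 1) + 0 by omega, ih' 0 hp]
    | succ n ihn =>
      intro hn
      rw [← add_assoc, ff_succ, ihn (by omega),
        show (2 ^ (s + 1) * (o + 1) + n + 1) / 2 = 2 ^ s * (o + 1) + (n + 1) / 2 by omega,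
        ih' _ (by omega), ff_succ n]
      ring

lemma Lv.left {s o : ℕ} (ho : 2 ≤ o) (h : Lv p s o) :
    ∀ n < 2 ^ s, ff p (2 ^ s * (o - 1) - n) = (-1) ^ s * ff p (o - 1) * ff p n := by
  induction s with
  | zero =>
    intro n hn
    obtain rfl : n = 0 := by simpa using hn
    simp [ff_zero]
  | succ s ih =>
    have ih' := ih (h.mono (by omega))
    have hp : 0 < 2 ^ s := by positivity
    have e1 : 2 ^ (s + 1) * (o - 1) = 2 * (2 ^ s * (o - 1)) := by ring
    have e2 : 2 ^ (s + 1) * (o + 1) = 2 * (2 ^ s * (o + 1)) := by ring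
    have e3 : 2 ^ (s + 1) = 2 * 2 ^ s := by ring
    have a1 := Nat.mul_lt_mul_of_pos_left (show o - 1 < o + 1 by omega) hp
    have a2 : 2 ^ s * 1 ≤ 2 ^ s * (o - 1) := Nat.mul_le_mul_left _ (by omega)
    intro n
    induction n with
    | zero =>
      intro _
      have b1 := ff_succ (p := p) (2 ^ (s + 1) * (o - 1))
      rw [h.win (by omega) _ (by omega) (by omega),
        show (2 ^ (s + 1) * (o - 1) + 1) / 2 = 2 ^ s * (o - 1) - 0 by omega, ih' 0 hp] at b1
      rw [Nat.sub_zero, pow_succ (-1 : ZMod p)]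
      linear_combination -b1
    | succ n ihn =>
      intro hn
      have b1 := ff_pred (p := p) (2 ^ (s + 1) * (o - 1) - n) (by omega)
      rw [ihn (by omega),
        show (2 ^ (s + 1) * (o - 1) - n) / 2 = 2 ^ s * (o - 1) - (n + 1) / 2 by omega,
        ih' _ (by omega),
        show 2 ^ (s + 1) * (o - 1) - n - 1 = 2 ^ (s + 1) * (o - 1) - (n + 1) by omega] at b1
      rw [ff_succ n, pow_succ (-1 : ZMod p)] at *
      linear_combination -b1

lemma left_ne [Fact p.Prime] {s o : ℕ} (ho : 2 ≤ o) (hi : Is p o) (h : Lv p s o) :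
    ff p (2 ^ s * (o - 1)) ≠ 0 := by
  have := h.left ho 0 (by positivity)
  rw [Nat.sub_zero, ff_zero, mul_one] at this
  rw [this]
  exact mul_ne_zero (pow_ne_zero _ (neg_ne_zero.2 one_ne_zero)) hi.1

lemma right_ne [Fact p.Prime] {s o : ℕ} (ho : 2 ≤ o) (hi : Is p o) (h : Lv p s o) :
    ff p (2 ^ s * (o + 1)) ≠ 0 := by
  have := h.right (by omega) 0 (by positivity)
  rw [add_zero, ff_zero, mul_one] at this
  rw [this]
  exact hi.2

lemma run_of_zero [Fact p.Prime] (h2 : (2 : ZMod p) ≠ 0) {a b : ℕ} (hab : a ≤ b)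
    (h : ∀ y, a ≤ y → y ≤ b → ff p y = 0) :
    ∃ o s, 2 ≤ o ∧ Is p o ∧ Lv p s o ∧ 2 ^ s * (o - 1) < a ∧ b < 2 ^ s * (o + 1) := by
  obtain ⟨o, s, b1, b2, b3, b4, b5⟩ := trace0 h2 a (h a le_rfl hab)
  refine ⟨o, s, b1, b2, b3, b4, ?_⟩
  by_contra hc
  exact right_ne b1 b2 b3 (h _ b5.le (by omega))

lemma start_inj {o o' u u' : ℕ} (ho : 2 ≤ o) (ho' : 2 ≤ o') (hi : Is p o) (hi' : Is p o')
    (h : Lv p u o) (h' : Lv p u' o') (e : 2 ^ u * (o - 1) = 2 ^ u' * (o' - 1)) :
    o = o' ∧ u = u' := by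
  have key : ∀ {o o' u k : ℕ}, 2 ≤ o → 2 ≤ o' → Is p o → Lv p (u + (k + 1)) o' →
      2 ^ u * (o - 1) = 2 ^ (u + (k + 1)) * (o' - 1) → False := by
    intro o o' u k ho ho' hi h' e
    rw [pow_add, mul_assoc] at e
    have e' := Nat.eq_of_mul_eq_mul_left (by positivity) e
    have hp : 2 ≤ 2 ^ (k + 1) := by
      rw [pow_succ]; have : 0 < 2 ^ k := by positivity
      omega
    have e2 : 2 ^ (k + 1) * (o' + 1) = 2 ^ (k + 1) * (o' - 1) + 2 * 2 ^ (k + 1) := by
      rw [show o' + 1 = (o' - 1) + 2 by omega]; ring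
    exact hi.2 ((h'.mono (by omega : k + 1 ≤ u + (k + 1))).win (by omega) _ (by omega) (by omega))
  rcases lt_trichotomy u u' with hc | rfl | hc
  · obtain ⟨k, rfl⟩ : ∃ k, u' = u + (k + 1) := ⟨u' - u - 1, by omega⟩
    exact (key ho ho' hi h' e).elim
  · have e' := Nat.eq_of_mul_eq_mul_left (by positivity) e
    exact ⟨by omega, rfl⟩
  · obtain ⟨k, rfl⟩ : ∃ k, u = u' + (k + 1) := ⟨u - u' - 1, by omega⟩
    exact (key ho' ho hi' h e.symm).elim

lemma palin [Fact p.Prime] (h2 : (2 : ZMod p) ≠ 0) (e : ℕ) :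
    ∀ ε : ZMod p, (∀ n ≤ e, ff p n = ε * ff p (e - n)) → e ≤ 2 := by
  induction e using Nat.strong_induction_on with
  | _ e ih =>
    intro ε h
    by_contra hc
    have hd : ∀ n, 1 ≤ n → n ≤ e → ff p (n / 2) = -ε * ff p ((e - n + 1) / 2) := by
      intro n n1 n2
      have a1 := ff_pred (p := p) n n1
      have a2 := ff_succ (p := p) (e - n)
      have a3 := h n n2
      have a4 := h (n - 1) (by omega)
      rw [show e - (n - 1) = e - n + 1 by omega] at a4
      linear_combination a3 - a1 - a4 - ε * a2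
    rcases Nat.even_or_odd' e with ⟨k, rfl | rfl⟩
    · have hk := ih k (by omega) (-ε) (fun m hm => by
        rcases hm.lt_or_eq with hm | rfl
        · have := hd (2 * m + 1) (by omega) (by omega)
          rwa [show (2 * m + 1) / 2 = m by omega,
            show (2 * k - (2 * m + 1) + 1) / 2 = k - m by omega] at this
        · have := hd (2 * m) (by omega) (by omega)
          rwa [show 2 * m / 2 = m by omega, show (2 * m - 2 * m + 1) / 2 = m - m by omega] at this)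
      obtain rfl : k = 2 := by omega
      have a1 := h 1 (by omega)
      have a2 := h 2 (by omega)
      have a3 := ff_succ (p := p) 2
      simp only [Nat.reduceMul, Nat.reduceSub, Nat.reduceAdd, Nat.reduceDiv] at a1 a2 a3
      rw [ff_one, ff_two] at *
      have h8 : (2 : ZMod p) ^ 4 = 0 := by
        linear_combination (-4) * a1 + 6 * a2 + (-4 * ε) * a3
      exact h2 (pow_eq_zero_iff (by norm_num) |>.1 h8)
    · have a1 := hd 1 (by omega) (by omega)
      have a2 := hd 2 (by omega) (by omega)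
      rw [show (2 * k + 1 - 1 + 1) / 2 = k by omega] at a1
      rw [show (2 * k + 1 - 2 + 1) / 2 = k by omega] at a2
      simp only [Nat.reduceDiv, ff_zero, ff_one] at a1 a2
      have : (1 : ZMod p) = 0 := by linear_combination a2 - a1
      exact one_ne_zero this

lemma palin_b [Fact p.Prime] (h2 : (2 : ZMod p) ≠ 0) (e : ℕ) (ε : ZMod p)
    (h : ∀ k ≤ e, ff p (k / 2) = ε * ff p ((e - k) / 2)) : e = 0 ∨ e = 1 ∨ e = 3 ∨ e = 5 := by
  rcases Nat.even_or_odd' e with ⟨k, rfl | rfl⟩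
  · by_contra hc
    have a1 := h 1 (by omega)
    have a2 := h 2 (by omega)
    rw [show (2 * k - 1) / 2 = k - 1 by omega] at a1
    rw [show (2 * k - 2) / 2 = k - 1 by omega] at a2
    simp only [Nat.reduceDiv, ff_zero, ff_one] at a1 a2
    have : (1 : ZMod p) = 0 := by linear_combination a2 - a1
    exact one_ne_zero this
  · have := palin h2 k ε (fun m hm => by
      have := h (2 * m) (by omega)
      rwa [show 2 * m / 2 = m by omega, show (2 * k + 1 - 2 * m) / 2 = k - m by omega] at this)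
    omega

end

section


open Polynomial Finset

variable {p : ℕ}

lemma dvd_of_expand' {K : Type*} [Field K] (h2 : (2 : K) ≠ 0) (k : ℕ) :
    ∀ U D : K[X], U.eval 1 ≠ 0 → (X - 1) ^ k ∣ U * D.comp (X ^ 2) → (X - 1) ^ k ∣ D := by
  induction k with
  | zero => intro U D _ _; simp
  | succ k ih =>
    intro U D hU h
    have h1 : (U * D.comp (X ^ 2)).eval 1 = 0 := by
      obtain ⟨W, hW⟩ := h
      rw [hW]; simp
    have h3 : D.eval 1 = 0 := by
      simp only [eval_mul, eval_comp, eval_pow, eval_X, one_pow, mul_eq_zero] at h1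
      exact h1.resolve_left hU
    obtain ⟨D', rfl⟩ : X - C 1 ∣ D := dvd_iff_isRoot.2 h3
    have hne : (X - 1 : K[X]) ≠ 0 := by simpa using X_sub_C_ne_zero (1 : K)
    have e : U * ((X - C 1) * D').comp (X ^ 2) = (X - 1) * ((U * (X + 1)) * D'.comp (X ^ 2)) := by
      simp only [mul_comp, sub_comp, X_comp, map_one, one_comp]; ring
    rw [e, pow_succ', mul_dvd_mul_iff_left hne] at h
    rw [pow_succ', map_one]
    refine mul_dvd_mul_left _ (ih (U * (X + 1)) D' ?_ h)
    simp only [eval_mul, eval_add, eval_X, eval_one]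
    exact mul_ne_zero hU (by rw [one_add_one_eq_two]; exact h2)

noncomputable def DD (p x g : ℕ) : (ZMod p)[X] := ∑ n ∈ range (g + 1), C (ff p (x + n)) * X ^ n

lemma coeff_DD (x g n : ℕ) : (DD p x g).coeff n = if n ≤ g then ff p (x + n) else 0 := by
  simp only [DD, finsetSum_coeff, coeff_C_mul, coeff_X_pow]
  split_ifs with h
  · rw [sum_eq_single n]
    · simp
    · intro b _ hb; simp [Ne.symm hb]
    · intro hn; exact absurd (mem_range.2 (by omega)) hn
  · refine sum_eq_zero (fun b hb => ?_)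
    have := mem_range.1 hb
    rw [if_neg (by omega), mul_zero]

lemma DD_dvd [Fact p.Prime] (h2 : (2 : ZMod p) ≠ 0) {x g I : ℕ}
    (hx : ∀ j < I, ff p (2 ^ (j + 1) * x) = ff p (2 ^ j * x)) (hx' : Lv p I (x + g)) :
    (X - 1) ^ I ∣ DD p x g := by
  have hstep : ∀ j < I, (1 - X) * DD p (2 ^ (j + 1) * x) (2 ^ (j + 1) * g)
      = (1 + X) * (DD p (2 ^ j * x) (2 ^ j * g)).comp (X ^ 2) := by
    intro j hj
    have e1 : 2 ^ (j + 1) * x = 2 * (2 ^ j * x) := by ring
    have e2 : 2 ^ (j + 1) * g = 2 * (2 ^ j * g) := by ring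
    have e3 : 2 ^ j * (x + g) = 2 ^ j * x + 2 ^ j * g := by ring
    have e4 : 2 ^ (j + 1) * (x + g) = 2 ^ (j + 1) * x + 2 * (2 ^ j * g) := by ring
    have := poly_step (fun k => ff p (2 ^ j * x + k)) (fun n => ff p (2 ^ (j + 1) * x + n))
      (2 ^ j * g) (fun n hn => by
        rw [← add_assoc, ff_succ,
          show (2 ^ (j + 1) * x + n + 1) / 2 = 2 ^ j * x + (n + 1) / 2 by omega]) (2 ^ j * g) le_rfl
    simp only [add_zero] at this
    rw [hx j hj, ← e3, ← e4, hx' j (by omega), hx' (j + 1) (by omega)] at this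
    simp only [DD]
    rw [e2, this]
    simp [Polynomial.sum_comp]
  have hdv : ∀ i ≤ I, (X - 1) ^ i ∣ DD p (2 ^ (I - i) * x) (2 ^ (I - i) * g) := by
    intro i
    induction i with
    | zero => intro _; simp
    | succ i ih =>
      intro hi
      have h1 := ih (by omega)
      have h3 := hstep (I - (i + 1)) (by omega)
      rw [show I - (i + 1) + 1 = I - i by omega] at h3
      refine dvd_of_expand' h2 (i + 1) (1 + X) _
        (by simp only [eval_add, eval_one, eval_X]; rw [one_add_one_eq_two]; exact h2) ?_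
      rw [← h3, pow_succ']
      exact mul_dvd_mul (by rw [← dvd_neg]; simp) h1
  simpa using hdv I le_rfl

lemma class_single {R : Type*} [CommRing R] {q : ℕ} {P : R[X]} (h : (X ^ q - 1) ∣ P) (n0 : ℕ)
    (h0 : ∀ n, n ≠ n0 → n % q = n0 % q → P.coeff n = 0) : P.coeff n0 = 0 := by
  obtain ⟨H, hH⟩ := h
  set w : ℕ → R := fun n => if n % q = n0 % q then 1 else 0 with hw
  set L : R[X] →ₗ[R] R := Polynomial.lsum (fun n => w n • LinearMap.id) with hL
  have hm : ∀ n a, L (monomial n a) = w n * a := by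
    intro n a
    rw [hL, lsum_apply, sum_monomial_index] <;> simp
  have key : ∀ H : R[X], L ((X ^ q - 1) * H) = 0 := by
    intro H
    induction H using Polynomial.induction_on' with
    | add a b ha hb => rw [mul_add, map_add, ha, hb, add_zero]
    | monomial n a =>
      rw [sub_mul, one_mul, X_pow_mul_monomial, map_sub, hm, hm]
      simp [hw]
  have h1 : L P = P.coeff n0 := by
    rw [hL, lsum_apply, Polynomial.sum_def, sum_eq_single n0]
    · simp [hw]
    · intro b _ hb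
      by_cases hc : b % q = n0 % q
      · simp [h0 b hb hc]
      · simp [hw, hc]
    · intro hn; simp [notMem_support_iff.1 hn]
  rw [← h1, hH, key]

lemma eq_of_mod {q n n' : ℕ} (h : n % q = n' % q) (h1 : n < n' + q) (h2 : n' < n + q) : n = n' := by
  rcases le_total n n' with hh | hh
  · have := Nat.eq_zero_of_dvd_of_lt ((Nat.modEq_iff_dvd' hh).1 h) (by omega)
    omega
  · have := Nat.eq_zero_of_dvd_of_lt ((Nat.modEq_iff_dvd' hh).1 h.symm) (by omega)
    omega

lemma coeff_one_sub {R : Type*} [CommRing R] (P : R[X]) (h n : ℕ) :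
    ((1 - X ^ h) * P).coeff n = P.coeff n - if h ≤ n then P.coeff (n - h) else 0 := by
  rw [sub_mul, one_mul, coeff_sub, coeff_X_pow_mul']

noncomputable def tr {R : Type*} [CommRing R] (w : ℕ) (P : R[X]) : R[X] :=
  ∑ n ∈ range w, monomial n (P.coeff n)

lemma coeff_tr {R : Type*} [CommRing R] (w : ℕ) (P : R[X]) (n : ℕ) :
    (tr w P).coeff n = if n < w then P.coeff n else 0 := by
  simp only [tr, finsetSum_coeff, coeff_monomial]
  rw [sum_ite_eq']
  simp

lemma eval_tr {R : Type*} [CommRing R] (w : ℕ) (P : R[X]) :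
    (tr (w + 1) ((1 - X) * P)).eval 1 = P.coeff w := by
  have e : ∀ n, ((1 - X) * P).coeff n = P.coeff n - if 1 ≤ n then P.coeff (n - 1) else 0 := by
    intro n; rw [← coeff_one_sub, pow_one]
  simp only [tr, eval_finsetSum, eval_monomial, one_pow, mul_one, e]
  induction w with
  | zero => simp
  | succ w ih => rw [sum_range_succ, ih]; simp

lemma two_zone {R : Type*} [CommRing R] {q a b m1 m2 w : ℕ} {P : R[X]} (hP : P ≠ 0)
    (h : (X ^ q - 1) ∣ P) (hz : ∀ n, P.coeff n ≠ 0 → (a ≤ n ∧ n < a + m1) ∨ (b ≤ n ∧ n < b + m2))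
    (hw : a + m1 ≤ w) (hw' : w ≤ b) (hq : m1 + m2 ≤ q) :
    ∃ d, 0 < d ∧ q ∣ d ∧ a + d < b + m2 ∧ P = (1 - X ^ d) * tr w P := by
  obtain ⟨n0, hn0⟩ : ∃ n, P.coeff n ≠ 0 := by
    by_contra hc
    exact hP (Polynomial.ext (fun n => by simpa using not_exists.1 hc n))
  obtain ⟨n1, a1, a2, a3⟩ : ∃ n, n ≠ n0 ∧ n % q = n0 % q ∧ P.coeff n ≠ 0 := by
    by_contra hc
    exact hn0 (class_single h n0 (fun n b1 b2 => by
      by_contra b3; exact hc ⟨n, b1, b2, b3⟩))
  obtain ⟨l, r, b1, b2, b3⟩ : ∃ l r, (a ≤ l ∧ l < a + m1) ∧ (b ≤ r ∧ r < b + m2) ∧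
      l % q = r % q := by
    rcases hz n0 hn0 with c1 | c1 <;> rcases hz n1 a3 with c2 | c2
    · exact (a1 (eq_of_mod a2 (by omega) (by omega))).elim
    · exact ⟨n0, n1, c1, c2, a2.symm⟩
    · exact ⟨n1, n0, c2, c1, a2⟩
    · exact (a1 (eq_of_mod a2 (by omega) (by omega))).elim
  obtain ⟨d, rfl⟩ : ∃ d, r = l + d := ⟨r - l, by omega⟩
  have hd : q ∣ d := by
    have := (Nat.modEq_iff_dvd' (by omega : l ≤ l + d)).1 b3
    rwa [Nat.add_sub_cancel_left] at this
  refine ⟨d, by omega, hd, by omega, ?_⟩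
  rw [← sub_eq_zero]
  have hdv : (X ^ q - 1 : R[X]) ∣ P - (1 - X ^ d) * tr w P := by
    refine dvd_sub h (Dvd.dvd.mul_right ?_ _)
    obtain ⟨e, rfl⟩ := hd
    rw [← dvd_neg, neg_sub, pow_mul]
    simpa using sub_dvd_pow_sub_pow (X ^ q : R[X]) 1 e
  have hs : ∀ n, (P - (1 - X ^ d) * tr w P).coeff n ≠ 0 →
      (b ≤ n ∧ n < b + m2) ∨ (a + d ≤ n ∧ n < a + d + m1) := by
    intro n hn
    rw [coeff_sub, coeff_one_sub, coeff_tr, coeff_tr] at hn
    by_contra hc
    have c1 : P.coeff n - (if n < w then P.coeff n else 0) = 0 := by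
      split_ifs with c
      · simp
      · by_contra c2
        rw [sub_zero] at c2
        have := hz n c2; omega
    have c2 : (if d ≤ n then (if n - d < w then P.coeff (n - d) else 0) else 0) = 0 := by
      split_ifs with c c'
      · by_contra c2
        have := hz _ c2; omega
      · rfl
      · rfl
    apply hn
    rw [c2]; simpa using c1
  ext n
  rw [coeff_zero]
  by_contra hn
  refine hn (class_single hdv n (fun k k1 k2 => ?_))
  by_contra k3
  have := hs n hn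
  have := hs k k3
  exact k1 (eq_of_mod k2 (by omega) (by omega))

noncomputable def PP (p x x' : ℕ) : (ZMod p)[X] := X ^ x * DD p x (x' - x)

lemma coeff_PP {x x' : ℕ} (n : ℕ) :
    (PP p x x').coeff n = if x ≤ n ∧ n - x ≤ x' - x then ff p n else 0 := by
  rw [PP, coeff_X_pow_mul', coeff_DD]
  by_cases h : x ≤ n
  · simp [h]
  · simp [h]

noncomputable def VP (p x x' : ℕ) : ℕ → (ZMod p)[X]
  | 0 => PP p x x'
  | j + 1 => (1 - X ^ 2 ^ j) * VP p x x' j

lemma VP_dvd {x x' : ℕ} {Q : (ZMod p)[X]} (h : Q ∣ PP p x x') (j : ℕ) : Q ∣ VP p x x' j := by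
  induction j with
  | zero => exact h
  | succ j ih => exact Dvd.dvd.mul_left ih _

lemma VP_ne [Fact p.Prime] {x x' : ℕ} (h : PP p x x' ≠ 0) (j : ℕ) : VP p x x' j ≠ 0 := by
  induction j with
  | zero => exact h
  | succ j ih =>
    refine mul_ne_zero (fun hc => ?_) ih
    have := congrArg (fun P => P.coeff 0) hc
    have hp : 0 < 2 ^ j := by positivity
    simp [coeff_X_pow, hp.ne] at this

lemma VP_lt {x x' : ℕ} (j : ℕ) : ∀ n < x, (VP p x x' j).coeff n = 0 := by
  induction j with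
  | zero => intro n hn; rw [VP, coeff_PP, if_neg (by omega)]
  | succ j ih => intro n hn; rw [VP, coeff_one_sub, ih n hn, ih _ (lt_of_le_of_lt (Nat.sub_le _ _) hn)]; simp

lemma VP_gt {x x' : ℕ} (hx : x ≤ x') (j : ℕ) :
    ∀ n, x' + 2 ^ j ≤ n → (VP p x x' j).coeff n = 0 := by
  induction j with
  | zero => intro n hn; rw [VP, coeff_PP, if_neg (by omega)]
  | succ j ih =>
    intro n hn
    rw [pow_succ] at hn
    rw [VP, coeff_one_sub, ih n (by omega), ih _ (by omega)]; simp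

lemma VP_mid {x x' : ℕ} (j : ℕ) :
    ∀ n, x + 2 ^ j ≤ n + 1 → n ≤ x' → (VP p x x' j).coeff n = ff p (n / 2 ^ j) := by
  induction j with
  | zero => intro n hn hn'; rw [VP, coeff_PP, if_pos (by omega)]; simp
  | succ j ih =>
    intro n hn hn'
    have hp : 0 < 2 ^ j := by positivity
    rw [pow_succ] at hn
    obtain ⟨m, rfl⟩ : ∃ m, n = m + 2 ^ j := ⟨n - 2 ^ j, by omega⟩
    rw [VP, coeff_one_sub, ih _ (by omega) hn', if_pos (by omega), Nat.add_sub_cancel,
      ih _ (by omega) (by omega), pow_succ, ← Nat.div_div_eq_div_mul, Nat.add_div_right _ hp,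
      ff_succ]
    ring

/-- the polynomial with the extra factor -/
noncomputable def TH (p x x' j : ℕ) : (ZMod p)[X] := (1 - X) * VP p x x' j

lemma coeff_TH (x x' j n : ℕ) : (TH p x x' j).coeff n
    = (VP p x x' j).coeff n - if 1 ≤ n then (VP p x x' j).coeff (n - 1) else 0 := by
  rw [← coeff_one_sub, pow_one, TH]

lemma TH_lt {x x' j n : ℕ} (h : n < x) : (TH p x x' j).coeff n = 0 := by
  rw [coeff_TH, VP_lt j n h, VP_lt j _ (by omega)]; simp

lemma TH_gt {x x' j n : ℕ} (hx : x ≤ x') (h : x' + 2 ^ j < n) : (TH p x x' j).coeff n = 0 := by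
  rw [coeff_TH, VP_gt hx j n (by omega), VP_gt hx j _ (by omega)]; simp

lemma TH_mid {x x' j n : ℕ} (h : x + 2 ^ j ≤ n) (h' : n ≤ x') :
    (TH p x x' j).coeff n = ff p (n / 2 ^ j) - ff p ((n - 1) / 2 ^ j) := by
  have hp : 0 < 2 ^ j := by positivity
  rw [coeff_TH, VP_mid j n (by omega) h', if_pos (by omega), VP_mid j _ (by omega) (by omega)]

lemma TH_ne [Fact p.Prime] {x x' : ℕ} (h : PP p x x' ≠ 0) (j : ℕ) : TH p x x' j ≠ 0 := by
  refine mul_ne_zero (fun hc => ?_) (VP_ne h j)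
  have := congrArg (fun P => P.coeff 0) hc
  simp at this

lemma frob [Fact p.Prime] (σ : ℕ) : (X - 1 : (ZMod p)[X]) ^ p ^ σ = X ^ p ^ σ - 1 := by
  rw [sub_pow_char_pow, one_pow]

lemma PP_dvd [Fact p.Prime] (h2 : (2 : ZMod p) ≠ 0) {x x' I : ℕ} (hle : x ≤ x')
    (hx : Lv p I x) (hx' : Lv p I x') : (X - 1) ^ I ∣ PP p x x' := by
  refine Dvd.dvd.mul_left (DD_dvd h2 (fun j hj => ?_) ?_) _
  · rw [hx j (by omega), hx (j + 1) (by omega)]
  · rwa [Nat.add_sub_cancel' hle]

lemma first_ge [Fact p.Prime] (h2 : (2 : ZMod p) ≠ 0) {x σ : ℕ} (hx : Lv p (p ^ σ) x) :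
    p ^ σ ≤ x := by
  have h := DD_dvd h2 (x := 0) (g := x) (I := p ^ σ) (fun j _ => by simp) (by simpa using hx)
  rw [frob] at h
  by_contra hc
  have := class_single h 0 (fun n h1 h3 => by
    rw [coeff_DD, if_neg]
    intro h4
    exact h1 (eq_of_mod h3 (by omega) (by omega)))
  rw [coeff_DD, if_pos (Nat.zero_le _), add_zero, ff_zero] at this
  exact one_ne_zero this

end

section


open Polynomial Finset

variable {p : ℕ}

lemma odd_p [Fact p.Prime] (h2 : (2 : ZMod p) ≠ 0) : Odd p := by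
  refine (Fact.out : p.Prime).odd_of_ne_two (fun h => h2 ?_)
  subst h; rfl

lemma cop [Fact p.Prime] (h2 : (2 : ZMod p) ≠ 0) (r σ : ℕ) : Nat.Coprime (2 ^ r) (p ^ σ) :=
  Nat.Coprime.pow _ _ (Nat.coprime_two_left.2 (odd_p h2))

lemma lone [Fact p.Prime] (h2 : (2 : ZMod p) ≠ 0) {z : ℕ} (a0 : ff p z = 0) (a1 : ff p (z + 1) = 0)
    (a3 : ff p (z + 3) = 0) : ff p (z + 2) = 0 := by
  have b1 := ff_succ (p := p) z
  have b2 := ff_succ (p := p) (z + 1)
  have b3 := ff_succ (p := p) (z + 2)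
  rcases Nat.even_or_odd' z with ⟨k, rfl | rfl⟩
  · rw [show (2 * k + 1 + 1) / 2 = k + 1 by omega, a1] at b2
    rw [show (2 * k + 2 + 1) / 2 = k + 1 by omega, a3] at b3
    have : 2 * ff p (2 * k + 2) = 0 := by linear_combination b2 - b3
    exact (mul_eq_zero.1 this).resolve_left h2
  · rw [show (2 * k + 1 + 1) / 2 = k + 1 by omega, a0, a1] at b1
    rw [show (2 * k + 1 + 1 + 1) / 2 = k + 1 by omega, a1] at b2
    linear_combination b2 - b1

lemma zone_once {q R a m m' : ℕ} (hq : 8 * R ≤ q) (h1 : m < m') (h2 : m' ≤ m + 7)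
    (b1 : ∃ n, n % q = (R * m) % q ∧ a ≤ n ∧ n < a + R)
    (b2 : ∃ n, n % q = (R * m') % q ∧ a ≤ n ∧ n < a + R) : False := by
  obtain ⟨n, c1, c2, c3⟩ := b1
  obtain ⟨n', d1, d2, d3⟩ := b2
  obtain ⟨k, rfl⟩ : ∃ k, m' = m + (k + 1) := ⟨m' - m - 1, by omega⟩
  have e1 : R * k ≤ R * 6 := Nat.mul_le_mul_left _ (by omega)
  have e2 : R * (k + 1) = R * k + R := by ring
  have e : (n + R * (k + 1)) % q = n' % q := by
    rw [d1, mul_add R m, Nat.add_mod, c1, ← Nat.add_mod]
  have := eq_of_mod e (by omega) (by omega)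
  omega

lemma PP_ne {x x' y : ℕ} (h1 : x < y) (h3 : y < x') (hy : ff p y ≠ 0) : PP p x x' ≠ 0 := by
  intro h
  have := coeff_PP (p := p) (x := x) (x' := x') y
  rw [h, coeff_zero, if_pos (by omega)] at this
  exact hy this.symm

lemma gap_ge [Fact p.Prime] {x x' q : ℕ} (hle : x ≤ x') (hP : PP p x x' ≠ 0)
    (hd : (X ^ q - 1) ∣ PP p x x') : x + q ≤ x' := by
  by_contra hc
  apply hP
  ext n
  rw [coeff_zero]
  by_contra hn
  refine hn (class_single hd n (fun k k1 k2 => ?_))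
  by_contra k3
  rw [coeff_PP] at hn k3
  have a1 : x ≤ n ∧ n - x ≤ x' - x := by by_contra a; exact hn (if_neg a)
  have a2 : x ≤ k ∧ k - x ≤ x' - x := by by_contra a; exact k3 (if_neg a)
  exact k1 (eq_of_mod k2 (by omega) (by omega))

lemma div_pred_of_not {R n : ℕ} (hn : 1 ≤ n) (h : ¬ R ∣ n) : (n - 1) / R = n / R := by
  obtain ⟨m, rfl⟩ : ∃ m, n = m + 1 := ⟨n - 1, by omega⟩
  rw [Nat.add_sub_cancel, Nat.succ_div, if_neg h, add_zero]

lemma TH_mul {x x' j m : ℕ} (h : x + 2 ^ j ≤ 2 ^ j * m) (h' : 2 ^ j * m ≤ x') :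
    (TH p x x' j).coeff (2 ^ j * m) = ff p (m / 2) := by
  have hp : 0 < 2 ^ j := by positivity
  obtain ⟨k, rfl⟩ : ∃ k, m = k + 1 := ⟨m - 1, by
    rcases Nat.eq_zero_or_pos m with rfl | hm
    · omega
    · omega⟩
  rw [TH_mid h h', Nat.mul_div_cancel_left _ hp, ff_succ,
    show (2 ^ j * (k + 1) - 1) / 2 ^ j = k from Nat.div_eq_of_lt_le
      (by rw [mul_add, mul_comm k]; omega) (by rw [mul_comm (k + 1)]; omega)]
  ring

lemma mid_zero [Fact p.Prime] (h2 : (2 : ZMod p) ≠ 0) {x x' σ r : ℕ} (hle : x ≤ x')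
    (hd : (X ^ p ^ σ - 1) ∣ PP p x x') (hr : 8 * 2 ^ r ≤ p ^ σ) (hg : x' ≤ x + 2 ^ r * p ^ σ)
    (n : ℕ) (n1 : x + 7 * 2 ^ r ≤ n) (n2 : n + 3 * 2 ^ r ≤ x') : ff p (n / 2 ^ (r + 1)) = 0 := by
  have hdT : (X ^ p ^ σ - 1) ∣ TH p x x' r := Dvd.dvd.mul_left (VP_dvd hd r) _
  have hc := cop h2 r σ
  set q := p ^ σ with hq
  have hR : 0 < 2 ^ r := by positivity
  have bad : ∀ m, x + 2 ^ r ≤ 2 ^ r * m → 2 ^ r * m ≤ x' → ff p (m / 2) ≠ 0 →
      (∃ n, n % q = (2 ^ r * m) % q ∧ x ≤ n ∧ n < x + 2 ^ r) ∨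
      (∃ n, n % q = (2 ^ r * m) % q ∧ x' + 1 ≤ n ∧ n < x' + 1 + 2 ^ r) := by
    intro m m1 m2 m3
    by_contra hb
    apply m3
    rw [← TH_mul m1 m2]
    refine class_single hdT _ (fun k k1 k2 => ?_)
    by_cases c1 : k < x
    · exact TH_lt c1
    by_cases c2 : x' + 2 ^ r < k
    · exact TH_gt hle c2
    have c3 : x + 2 ^ r ≤ k := by
      by_contra c; exact hb (Or.inl ⟨k, k2, by omega, by omega⟩)
    have c4 : k ≤ x' := by
      by_contra c; exact hb (Or.inr ⟨k, k2, by omega, by omega⟩)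
    by_cases c5 : 2 ^ r ∣ k
    · obtain ⟨m', rfl⟩ := c5
      have c6 : m' ≡ m [MOD q] := Nat.ModEq.cancel_left_of_coprime (by rwa [Nat.gcd_comm]) k2
      have c7 : m' < m + q := by
        refine Nat.lt_of_mul_lt_mul_left (a := 2 ^ r) ?_
        rw [mul_add]; omega
      have c8 : m < m' + q := by
        refine Nat.lt_of_mul_lt_mul_left (a := 2 ^ r) ?_
        rw [mul_add]; omega
      exact (k1 (by rw [eq_of_mod c6 c7 c8])).elim
    · rw [TH_mid c3 c4, div_pred_of_not (by omega) c5, sub_self]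
  have d1 := Nat.mul_div_le n (2 ^ (r + 1))
  have d2 := Nat.lt_mul_div_succ n (show 0 < 2 ^ (r + 1) by positivity)
  generalize n / 2 ^ (r + 1) = y at *
  rw [pow_succ] at d1 d2
  obtain ⟨z, rfl⟩ : ∃ z, y = z + 2 := ⟨y - 2, by
    by_contra hc
    have : y ≤ 1 := by omega
    have := Nat.mul_le_mul_left (2 ^ r * 2) (by omega : y + 1 ≤ 2)
    omega⟩
  have e : ∀ k, 2 ^ r * (2 * z + k) = 2 * (2 ^ r * z) + 2 ^ r * k := fun k => by ring
  rw [show 2 ^ r * 2 * (z + 2) = 2 * (2 ^ r * z) + 4 * 2 ^ r by ring] at d1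
  rw [show 2 ^ r * 2 * (z + 2 + 1) = 2 * (2 ^ r * z) + 6 * 2 ^ r by ring] at d2
  by_contra hy
  have g4 := bad (2 * z + 4) (by rw [e]; omega) (by rw [e]; omega)
    (by rwa [show (2 * z + 4) / 2 = z + 2 by omega])
  have g5 := bad (2 * z + 5) (by rw [e]; omega) (by rw [e]; omega)
    (by rwa [show (2 * z + 5) / 2 = z + 2 by omega])
  have other : ∀ k, k ≤ 6 → k ≠ 4 → k ≠ 5 → ff p ((2 * z + k) / 2) = 0 := by
    intro k k1 k2 k3
    by_contra hk
    have k4 := Nat.mul_le_mul_left (2 ^ r) k1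
    have g := bad (2 * z + k) (by rw [e]; omega) (by rw [e]; omega) hk
    rcases g4 with g4 | g4 <;> rcases g5 with g5 | g5
    · exact zone_once hr (by omega) (by omega) g4 g5
    · rcases g with g | g <;> rcases lt_or_gt_of_ne k2 with c | c
      · exact zone_once hr (by omega) (by omega) g g4
      · exact zone_once hr (by omega) (by omega) g4 g
      · exact zone_once hr (by omega) (by omega) g g5
      · exact zone_once hr (by omega) (by omega) g5 g
    · rcases g with g | g <;> rcases lt_or_gt_of_ne k2 with c | c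
      · exact zone_once hr (by omega) (by omega) g g5
      · exact zone_once hr (by omega) (by omega) g5 g
      · exact zone_once hr (by omega) (by omega) g g4
      · exact zone_once hr (by omega) (by omega) g4 g
    · exact zone_once hr (by omega) (by omega) g4 g5
  have o0 := other 0 (by omega) (by omega) (by omega)
  have o2 := other 2 (by omega) (by omega) (by omega)
  have o6 := other 6 (by omega) (by omega) (by omega)
  rw [show (2 * z + 0) / 2 = z by omega] at o0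
  rw [show (2 * z + 2) / 2 = z + 1 by omega] at o2
  rw [show (2 * z + 6) / 2 = z + 3 by omega] at o6
  exact hy (lone h2 o0 o2 o6)

lemma TH_zero {x x' : ℕ} (hle : x ≤ x') (hx : ff p x = 0) (hx' : ff p x' = 0) (n : ℕ) :
    (TH p x x' 0).coeff n = if x < n ∧ n ≤ x' then ff p (n / 2) else 0 := by
  split_ifs with h
  · rw [TH_mid (by omega) h.2, pow_zero, Nat.div_one, Nat.div_one, ff_pred n (by omega)]
    ring
  · rw [coeff_TH, VP, coeff_PP, coeff_PP]
    by_cases c1 : n = x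
    · subst c1
      rw [if_pos (by omega), hx]
      split_ifs with c2 c3
      · omega
      · simp
      · simp
    by_cases c2 : n = x' + 1
    · subst c2
      rw [if_neg (by omega), if_pos (by omega), Nat.add_sub_cancel, hx']; simp
    · rw [if_neg (by omega)]
      split_ifs with c3 c4
      · omega
      · simp
      · simp

lemma rho_one [Fact p.Prime] (h2 : (2 : ZMod p) ≠ 0) {x x' w d o s M : ℕ} (hle : x ≤ x')
    (hx : ff p x = 0) (hx' : ff p x' = 0) (hne : TH p x x' 0 ≠ 0)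
    (hT : TH p x x' 0 = (1 - X ^ d) * tr w (TH p x x' 0)) (ho : 2 ≤ o) (hi : Is p o)
    (hl : Lv p s o) (w1 : 2 * (2 ^ s * (o - 1)) + 2 ≤ w) (w2 : w ≤ 2 * (2 ^ s * (o + 1)))
    (w3 : w ≤ x') (hM : 2 * (2 ^ s * (o - 1)) + 2 ≤ x + M) (hM' : M ≤ 2 * 2 ^ s) :
    d + 1 = 4 * 2 ^ s ∨ d = 4 * 2 ^ s ∨ d = 4 * 2 ^ s + 2 ∨ d = 4 * 2 ^ s + 4 := by
  have hab : 2 ^ s * (o + 1) = 2 ^ s * (o - 1) + 2 * 2 ^ s := by
    rw [show o + 1 = (o - 1) + 2 by omega]; ring
  have hL := hl.left ho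
  have hR := hl.right (by omega)
  have hW := hl.win (by omega)
  have hLn := left_ne ho hi hl
  have hRn := right_ne ho hi hl
  generalize 2 ^ s * (o - 1) = a at *
  generalize 2 ^ s * (o + 1) = b at *
  have hc := TH_zero hle hx hx'
  set Θ := TH p x x' 0 with hΘ
  have key : ∀ n, Θ.coeff n = (if n < w then Θ.coeff n else 0)
      - if d ≤ n then (if n - d < w then Θ.coeff (n - d) else 0) else 0 := by
    intro n
    conv_lhs => rw [hT]
    rw [coeff_one_sub, coeff_tr, coeff_tr]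
  have supp : ∀ n, Θ.coeff n ≠ 0 → x < n ∧ n ≤ x' ∧ (n ≤ 2 * a + 1 ∨ 2 * b ≤ n) := by
    intro n hn
    rw [hc] at hn
    have a1 : x < n ∧ n ≤ x' := by by_contra a; exact hn (if_neg a)
    rw [if_pos a1] at hn
    refine ⟨a1.1, a1.2, ?_⟩
    by_contra a2
    exact hn (hW _ (by omega) (by omega))
  have h1 : x < 2 * a + 1 := by
    by_contra a1
    apply hne
    rw [hT]
    refine mul_eq_zero_of_right _ (Polynomial.ext (fun n => ?_))
    rw [coeff_tr, coeff_zero]
    split_ifs with a2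
    · by_contra a3
      have := supp n a3; omega
    · rfl
  have h3 : Θ.coeff (2 * a + 1) ≠ 0 := by
    rwa [hc, if_pos (by omega), show (2 * a + 1) / 2 = a by omega]
  have h4 : Θ.coeff (2 * a + 1 + d) ≠ 0 ∧ w ≤ 2 * a + 1 + d := by
    have := key (2 * a + 1 + d)
    rw [if_pos (Nat.le_add_left _ _), Nat.add_sub_cancel, if_pos (by omega : 2 * a + 1 < w)] at this
    split_ifs at this with a1
    · exact (h3 (by linear_combination this)).elim
    · exact ⟨fun a2 => h3 (by linear_combination this - a2), by omega⟩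
  have h5 := supp _ h4.1
  have h6 : Θ.coeff (2 * b) ≠ 0 := by
    rwa [hc, if_pos (by omega), show 2 * b / 2 = b by omega]
  have h7 : d ≤ 2 * b ∧ x < 2 * b - d := by
    have := key (2 * b)
    rw [if_neg (by omega)] at this
    split_ifs at this with a1 a2
    · exact ⟨a1, (supp _ (fun a3 => h6 (by linear_combination this - a3))).1⟩
    · exact (h6 (by linear_combination this)).elim
    · exact (h6 (by linear_combination this)).elim
  obtain ⟨e, he⟩ : ∃ e, 2 * a + 1 + d = 2 * b + e := ⟨2 * a + 1 + d - 2 * b, by omega⟩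
  have := palin_b h2 e (-((-1) ^ s * ff p (o - 1)) / ff p (o + 1)) (fun k hk => by
    have a1 := key (2 * b + k)
    rw [if_neg (by omega), if_pos (by omega), if_pos (by omega), hc, hc, if_pos (by omega),
      if_pos (by omega), show (2 * b + k) / 2 = b + k / 2 by omega,
      show (2 * b + k - d) / 2 = a - (e - k) / 2 by omega, hR _ (by omega), hL _ (by omega)] at a1
    have a2 := hi.2
    field_simp
    linear_combination a1)
  omega

lemma pq_dvd [Fact p.Prime] {σ d : ℕ} {T : (ZMod p)[X]} (hT : T.eval 1 ≠ 0) (hd : p ^ σ ∣ d)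
    (h : (X - 1) ^ (p ^ σ + 1) ∣ (1 - X ^ d) * T) : p * p ^ σ ∣ d := by
  obtain ⟨e, rfl⟩ := hd
  have hne : (X - 1 : (ZMod p)[X]) ≠ 0 := by simpa using X_sub_C_ne_zero (1 : ZMod p)
  have e1 : (1 - X ^ (p ^ σ * e) : (ZMod p)[X]) * T
      = (X - 1) ^ p ^ σ * (-((∑ i ∈ range e, X ^ i) ^ p ^ σ * T)) := by
    have a1 : (X ^ (p ^ σ * e) - 1 : (ZMod p)[X]) = (X ^ e - 1) ^ p ^ σ := by
      rw [sub_pow_char_pow, one_pow, ← pow_mul, mul_comm e]
    rw [← geom_sum_mul X e, mul_pow] at a1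
    linear_combination (-T) * a1
  rw [e1, pow_succ, mul_dvd_mul_iff_left (pow_ne_zero _ hne), dvd_neg] at h
  obtain ⟨W, hW⟩ := h
  have a2 := congrArg (eval 1) hW
  simp only [eval_mul, eval_pow, eval_finsetSum, eval_X, one_pow, sum_const, card_range,
    nsmul_eq_mul, mul_one, eval_sub, eval_one, sub_self, zero_mul, mul_eq_zero] at a2
  have a3 := pow_eq_zero_iff (pow_pos (Fact.out : p.Prime).pos σ).ne' |>.1 (a2.resolve_right hT)
  rw [mul_comm]
  exact Nat.mul_dvd_mul_left _ ((ZMod.natCast_eq_zero_iff e p).1 a3)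

lemma two_pow_dvd {R : Type*} [CommRing R] {χ : R[X]} {h d n0 : ℕ} (hh : 0 < h) (hn : h ≤ n0 + 1)
    (hd : 0 < d) (hc : χ.coeff n0 ≠ 0) (hz : ∀ n, n0 < n + h → n < n0 → χ.coeff n = 0)
    (e : (1 - X ^ h) * χ = (1 - X ^ d) * tr (n0 + 1) ((1 - X ^ h) * χ)) : h ∣ d := by
  have e1 : tr (n0 + 1) ((1 - X ^ h) * χ)
      = (1 - X ^ h) * tr (n0 + 1 - h) χ + monomial n0 (χ.coeff n0) := by
    ext n
    rw [coeff_add, coeff_tr, coeff_one_sub, coeff_one_sub, coeff_tr, coeff_tr, coeff_monomial]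
    by_cases c1 : n0 = n
    · subst c1
      rw [if_pos (by omega), if_neg (by omega : ¬ n0 < n0 + 1 - h), if_pos rfl]
      split_ifs with c2 c3
      · ring
      · omega
      · ring
    · rw [if_neg c1, add_zero]
      by_cases c2 : n < n0 + 1
      · rw [if_pos c2]
        by_cases c3 : n < n0 + 1 - h
        · rw [if_pos c3]
          split_ifs with c4 c5
          · rfl
          · omega
          · rfl
        · rw [if_neg c3, hz n (by omega) (by omega)]
          split_ifs with c4 c5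
          · rfl
          · omega
          · rfl
      · rw [if_neg c2, if_neg (by omega), if_pos (by omega), if_neg (by omega), sub_zero]
  have hdv : (X ^ h - 1 : R[X]) ∣ (1 - X ^ d) * monomial n0 (χ.coeff n0) :=
    ⟨(1 - X ^ d) * tr (n0 + 1 - h) χ - χ, by rw [e1] at e; linear_combination -e⟩
  by_contra hnd
  have := class_single hdv n0 (fun n n1 n2 => by
    rw [coeff_one_sub, coeff_monomial, coeff_monomial, if_neg (Ne.symm n1)]
    split_ifs with c1 c2
    · exfalso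
      apply hnd
      have := (Nat.modEq_iff_dvd' (by omega : n0 ≤ n)).1 n2.symm
      rwa [show n - n0 = d by omega] at this
    · simp
    · simp)
  rw [coeff_one_sub, coeff_monomial, coeff_monomial, if_pos rfl] at this
  split_ifs at this with c1 c2
  · omega
  · exact hc (by simpa using this)
  · exact hc (by simpa using this)

theorem lemU [Fact p.Prime] (h2 : (2 : ZMod p) ≠ 0) {x x' σ r : ℕ}
    (hx : Lv p (p ^ σ) x) (hx' : Lv p (p ^ σ) x') (hy : ∃ y, x < y ∧ y < x' ∧ ff p y ≠ 0)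
    (hr : 32 * 2 ^ r ≤ p ^ σ) (hg : x' ≤ x + 2 ^ r * p ^ σ)
    (hord : ∀ k, 1 ≤ k → ((p ^ σ : ℕ) : ℤ) ∣ 4 ^ k - 1 → p ^ σ * p ^ σ < 2 ^ k) :
    ∃ k < r, ∃ o s, 2 ≤ o ∧ Is p o ∧ Lv p s o ∧ ff p (2 ^ (s + 1) * o) ≠ 0 ∧
      2 ^ (s + k + 2) * (o - 1) < x + 7 * 2 ^ r ∧ x' < 2 ^ (s + k + 2) * (o + 1) + 3 * 2 ^ r ∧
      x + 2 ^ k * (p * p ^ σ) ≤ x' + 2 ^ r := by
  classical
  obtain ⟨y, y1, y2, y3⟩ := hy
  have hle : x ≤ x' := by omega
  have hP := PP_ne y1 y2 y3
  have hd0 := PP_dvd h2 hle hx hx'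
  have hd : (X ^ p ^ σ - 1) ∣ PP p x x' := by rwa [frob] at hd0
  have hq := gap_ge hle hP hd
  have hex : ∃ j, ∀ n, x + 7 * 2 ^ r ≤ n → n + 3 * 2 ^ r ≤ x' → ff p (n / 2 ^ (j + 1)) = 0 :=
    ⟨r, mid_zero h2 hle hd (by omega) hg⟩
  have hjr : Nat.find hex ≤ r := Nat.find_min' hex (mid_zero h2 hle hd (by omega) hg)
  have hj := Nat.find_spec hex
  have hmin := fun m => Nat.find_min hex (m := m)
  generalize Nat.find hex = j at *
  have hJ : 2 ^ j ≤ 2 ^ r := Nat.pow_le_pow_right (by norm_num) hjr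
  have hJ0 : 0 < 2 ^ j := by positivity
  have hJ1 : 0 < 2 ^ (j + 1) := by positivity
  obtain ⟨u', hu'⟩ : ∃ u', x' = u' + 3 * 2 ^ r := ⟨x' - 3 * 2 ^ r, by omega⟩
  obtain ⟨o, s, ho, hi, hl, o1, o2⟩ := run_of_zero h2
    (Nat.div_le_div_right (c := 2 ^ (j + 1)) (show x + 7 * 2 ^ r ≤ u' by omega))
    (fun z z1 z2 => by
      rcases z1.eq_or_lt with z1 | z1
      · rw [← z1]; exact hj _ le_rfl (by omega)
      · have a1 := (Nat.div_lt_iff_lt_mul hJ1).1 z1
        have a2 := (Nat.le_div_iff_mul_le hJ1).1 z2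
        have := hj (z * 2 ^ (j + 1)) (by omega) (by omega)
        rwa [Nat.mul_div_cancel _ hJ1] at this)
  have o3 := (Nat.le_div_iff_mul_le hJ1).1 (Nat.succ_le_of_lt o1)
  have o4 := (Nat.div_lt_iff_lt_mul hJ1).1 o2
  rw [show (2 ^ s * (o - 1)).succ * 2 ^ (j + 1) = 2 ^ (s + 1) * (o - 1) * 2 ^ j + 2 * 2 ^ j by
    rw [Nat.succ_eq_add_one]; ring] at o3
  rw [show 2 ^ s * (o + 1) * 2 ^ (j + 1) = 2 ^ (s + 1) * (o + 1) * 2 ^ j by ring] at o4
  have hc : ∀ n, x + 7 * 2 ^ r ≤ n + 1 → n ≤ u' → ff p (n / 2 ^ j) = ff p (2 ^ (s + 1) * o) := by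
    intro n n1 n2
    refine hl.const (by omega) _ (Nat.lt_of_succ_le ((Nat.le_div_iff_mul_le hJ0).2 ?_))
      ((Nat.div_lt_iff_lt_mul hJ0).2 (by omega))
    rw [Nat.succ_mul]; omega
  have hz : ∀ n, (TH p x x' j).coeff n ≠ 0 →
      (x ≤ n ∧ n < x + 7 * 2 ^ r) ∨ (u' + 1 ≤ n ∧ n < u' + 1 + 4 * 2 ^ r) := by
    intro n hn
    by_contra hb
    apply hn
    by_cases c1 : n < x
    · exact TH_lt c1
    by_cases c2 : x' + 2 ^ j < n
    · exact TH_gt hle c2
    rw [TH_mid (by omega) (by omega), hc n (by omega) (by omega), hc (n - 1) (by omega) (by omega),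
      sub_self]
  have hdT : (X ^ p ^ σ - 1) ∣ TH p x x' j := Dvd.dvd.mul_left (VP_dvd hd j) _
  rcases j with _ | k
  · exfalso
    obtain ⟨d, d0, d1, d2, d3⟩ := two_zone (w := x + 7 * 2 ^ r) (TH_ne hP 0) hdT hz le_rfl
      (by omega) (by omega)
    have e1 : 2 ^ (s + 1) * (o - 1) * 2 ^ 0 = 2 * (2 ^ s * (o - 1)) := by ring
    have e2 : 2 ^ (s + 1) * (o + 1) * 2 ^ 0 = 2 * (2 ^ s * (o + 1)) := by ring
    have hab : 2 ^ s * (o + 1) = 2 ^ s * (o - 1) + 2 * 2 ^ s := by
      rw [show o + 1 = (o - 1) + 2 by omega]; ring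
    have hs : 7 * 2 ^ r ≤ 2 * 2 ^ s := by omega
    have h5 := rho_one h2 (M := 7 * 2 ^ r) hle hx.zero hx'.zero (TH_ne hP 0) d3 ho hi hl (by omega)
      (by omega) (by omega) (by omega) hs
    have hb : 4 * 2 ^ s ≤ p ^ σ * p ^ σ := by
      have a1 : 4 * 2 ^ s ≤ 2 ^ r * p ^ σ + 2 ^ r + 1 := by omega
      have a2 := Nat.mul_le_mul_right (p ^ σ) hr
      have a3 := Nat.mul_le_mul_left (2 ^ r) (show 1 ≤ p ^ σ by omega)
      rw [mul_assoc] at a2
      omega
    have four : ∀ k, (4 : ℤ) ^ k - 1 = (2 ^ k + 1) * (2 ^ k - 1) := fun k => by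
      rw [show (4 : ℤ) = 2 * 2 by norm_num, mul_pow]; ring
    have plus : ∀ k, 1 ≤ k → p ^ σ ∣ 2 ^ k + 1 → p ^ σ * p ^ σ < 2 ^ k := fun k k1 k2 =>
      hord k k1 (by rw [four]; exact Dvd.dvd.mul_right (by exact_mod_cast k2) _)
    rcases h5 with h5 | h5 | h5 | h5
    · have := hord (s + 2) (by omega) (by
        rw [four]
        refine Dvd.dvd.mul_left ?_ _
        have a1 : ((2 : ℤ) ^ (s + 2) - 1) = d := by
          have a2 : ((d + 1 : ℕ) : ℤ) = (4 * 2 ^ s : ℕ) := by rw [h5]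
          push_cast at a2
          rw [pow_add]; linarith
        rw [a1]; exact_mod_cast d1)
      rw [pow_add] at this; omega
    · have := (cop h2 (s + 2) σ).symm.eq_one_of_dvd (by
        rwa [show 2 ^ (s + 2) = d by rw [h5]; ring])
      omega
    · have := plus (s + 1) (by omega) ((cop h2 1 σ).symm.dvd_of_dvd_mul_left (by
        rwa [show 2 ^ 1 * (2 ^ (s + 1) + 1) = d by rw [h5]; ring]))
      rw [pow_succ] at this; omega
    · have := plus s (by
        rcases Nat.eq_zero_or_pos s with rfl | a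
        · omega
        · exact a) ((cop h2 2 σ).symm.dvd_of_dvd_mul_left (by
        rwa [show 2 ^ 2 * (2 ^ s + 1) = d by rw [h5]; ring]))
      omega
  · have hcn : ff p (2 ^ (s + 1) * o) ≠ 0 := by
      intro hc0
      exact hmin k (by omega) (fun n n1 n2 => by rw [hc n (by omega) (by omega), hc0])
    have hK : 0 < 2 ^ k := by positivity
    have hK2 : 2 ^ (k + 1) = 2 * 2 ^ k := by ring
    obtain ⟨m, m1, m2⟩ : ∃ m, x + 7 * 2 ^ r < 2 ^ k * m ∧ 2 ^ k * m ≤ x + 7 * 2 ^ r + 2 ^ k :=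
      ⟨(x + 7 * 2 ^ r) / 2 ^ k + 1, Nat.lt_mul_div_succ _ hK, by
        have := Nat.mul_div_le (x + 7 * 2 ^ r) (2 ^ k)
        rw [mul_add]; omega⟩
    obtain ⟨d, d0, d1, d2, d3⟩ := two_zone (w := 2 ^ k * m + 1) (TH_ne hP (k + 1)) hdT hz
      (by omega) (by omega) (by omega)
    have a1 : p * p ^ σ ∣ d := by
      refine pq_dvd (T := tr (2 ^ k * m + 1) (TH p x x' (k + 1))) ?_ d1 ?_
      · rw [TH, eval_tr, VP_mid _ _ (by omega) (by omega), hc _ (by omega) (by omega)]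
        exact hcn
      · rw [← d3, TH, pow_succ']
        exact mul_dvd_mul (by rw [← dvd_neg]; simp) (VP_dvd hd0 _)
    have a2 : 2 ^ k ∣ d := by
      have e : TH p x x' (k + 1) = (1 - X ^ 2 ^ k) * TH p x x' k := by
        rw [TH, TH, VP]; ring
      rw [e] at d3
      refine two_pow_dvd hK (by omega) d0 ?_ (fun n n1 n2 => ?_) d3
      · rw [TH_mul (by omega) (by omega)]
        have := hc (2 ^ k * m) (by omega) (by omega)
        rw [pow_succ, ← Nat.div_div_eq_div_mul, Nat.mul_div_cancel_left _ hK] at this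
        rwa [this]
      · rw [TH_mid (by omega) (by omega), div_pred_of_not (by omega), sub_self]
        rintro ⟨c, rfl⟩
        have b1 := Nat.lt_of_mul_lt_mul_left n2
        have b2 : m < c + 1 := Nat.lt_of_mul_lt_mul_left (a := 2 ^ k) (by rw [mul_add]; omega)
        omega
    have a3 : 2 ^ k * (p * p ^ σ) ∣ d :=
      Nat.Coprime.mul_dvd_of_dvd_of_dvd (by rw [← pow_succ']; exact cop h2 k _) a2 a1
    have a4 := Nat.le_of_dvd d0 a3
    refine ⟨k, by omega, o, s, ho, hi, hl, hcn, ?_, ?_, by omega⟩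
    · rw [show 2 ^ (s + k + 2) * (o - 1) = 2 ^ (s + 1) * (o - 1) * 2 ^ (k + 1) by ring]; omega
    · rw [show 2 ^ (s + k + 2) * (o + 1) = 2 ^ (s + 1) * (o + 1) * 2 ^ (k + 1) by ring]; omega

end

end Pool.Agent.MP_d42cd1_nt.H97
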