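import Pool.Agent.MP_d42cd1_nt.H97.NA

namespace Pool.Agent.MP_d42cd1_nt.H97

section


open Finset

variable {p : ℕ}

open Classical in
lemma cov {α ι : Type*} (S : Finset α) (I : Finset ι) (U : ι → Finset α) (f : α → ℝ)
    (hf : ∀ n, 0 ≤ f n) (h : ∀ m ∈ S, ∃ i ∈ I, m ∈ U i) :
    ∑ m ∈ S, f m ≤ ∑ i ∈ I, ∑ m ∈ U i, f m := by
  calc ∑ m ∈ S, f m ≤ ∑ m ∈ S, ∑ i ∈ I, (if m ∈ U i then f m else 0) := by
        refine sum_le_sum (fun m hm => ?_)
        obtain ⟨i, hi, hmi⟩ := h m hm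
        have := single_le_sum (f := fun i => if m ∈ U i then f m else 0) (s := I)
          (fun j _ => by split_ifs; exacts [hf m, le_rfl]) hi
        simpa [hmi] using this
    _ = ∑ i ∈ I, ∑ m ∈ S, (if m ∈ U i then f m else 0) := sum_comm
    _ ≤ _ := by
        refine sum_le_sum (fun i _ => ?_)
        rw [← sum_filter]
        exact sum_le_sum_of_subset_of_nonneg (fun m hm => (mem_filter.1 hm).2) (fun m _ _ => hf m)

lemma pack {ι : Type*} (S : Finset ι) (lo len : ι → ℕ) (A B : ℕ)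
    (h1 : ∀ i ∈ S, A ≤ lo i ∧ lo i + len i ≤ A + B)
    (h2 : ∀ i ∈ S, ∀ j ∈ S, i ≠ j → lo i + len i ≤ lo j ∨ lo j + len j ≤ lo i) :
    ∑ i ∈ S, len i ≤ B := by
  classical
  have e : (S.biUnion (fun i => Ico (lo i) (lo i + len i))).card = ∑ i ∈ S, len i := by
    rw [card_biUnion]
    · simp
    · intro i hi j hj hij
      refine disjoint_left.2 (fun n n1 n2 => ?_)
      have := h2 i hi j hj hij
      simp only [mem_Ico] at n1 n2
      omega
  rw [← e]
  refine (card_le_card (t := Ico A (A + B)) (fun n hn => ?_)).trans (by simp)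
  obtain ⟨i, hi, hn⟩ := mem_biUnion.1 hn
  have := h1 i hi
  simp only [mem_Ico] at hn ⊢
  omega

def Rn (p i N : ℕ) (z : ℕ × ℕ) : Prop :=
  2 ≤ z.2 ∧ ff p (z.2 - 1) ≠ 0 ∧ Lv p i z.2 ∧ 2 ^ z.1 * (z.2 - 1) < N

def Og (p s N : ℕ) (z : ℕ × ℕ) : Prop :=
  2 ≤ z.2 ∧ Is p z.2 ∧ Lv p s z.2 ∧ 2 ^ z.1 * (z.2 - 1) < N

def box (N a L : ℕ) : Finset (ℕ × ℕ) := Ico a (a + L) ×ˢ range (N + 2)

open Classical in
noncomputable def OmR (p i N a L : ℕ) : Finset (ℕ × ℕ) := (box N a L).filter (Rn p i N)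

open Classical in
noncomputable def OmO (p s N a L : ℕ) : Finset (ℕ × ℕ) := (box N a L).filter (Og p s N)

noncomputable def SR (p i N a L : ℕ) : ℝ := ∑ z ∈ OmR p i N a L, (2 : ℝ) ^ z.1

noncomputable def SO (p s N a L : ℕ) : ℝ := ∑ z ∈ OmO p s N a L, (2 : ℝ) ^ z.1

lemma lt_of_pow_mul {t y N : ℕ} (h : 2 ^ t * (y - 1) < N) : y < N + 2 := by
  have : 1 * (y - 1) ≤ 2 ^ t * (y - 1) := Nat.mul_le_mul_right _ (Nat.one_le_two_pow)
  omega

lemma mem_OmR {i N a L : ℕ} {z : ℕ × ℕ} :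
    z ∈ OmR p i N a L ↔ a ≤ z.1 ∧ z.1 < a + L ∧ Rn p i N z := by
  classical
  simp only [OmR, box, mem_filter, mem_product, mem_Ico, mem_range]
  exact ⟨fun h => ⟨h.1.1.1, h.1.1.2, h.2⟩, fun h => ⟨⟨⟨h.1, h.2.1⟩, lt_of_pow_mul h.2.2.2.2.2⟩, h.2.2⟩⟩

lemma mem_OmO {s N a L : ℕ} {z : ℕ × ℕ} :
    z ∈ OmO p s N a L ↔ a ≤ z.1 ∧ z.1 < a + L ∧ Og p s N z := by
  classical
  simp only [OmO, box, mem_filter, mem_product, mem_Ico, mem_range]
  exact ⟨fun h => ⟨h.1.1.1, h.1.1.2, h.2⟩, fun h => ⟨⟨⟨h.1, h.2.1⟩, lt_of_pow_mul h.2.2.2.2.2⟩, h.2.2⟩⟩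

lemma SR_mono {i i' N a L : ℕ} (h : i' ≤ i) : SR p i N a L ≤ SR p i' N a L :=
  sum_le_sum_of_subset_of_nonneg (fun _ hz => by
    obtain ⟨a1, a2, a3, a4, a5, a6⟩ := mem_OmR.1 hz
    exact mem_OmR.2 ⟨a1, a2, a3, a4, a5.mono h, a6⟩) (fun _ _ _ => by positivity)

/-- packing at a fixed scale -/
lemma pack_scale (S : Finset (ℕ × ℕ)) (t N G : ℕ) (lo : ℕ × ℕ → ℕ) (h0 : ∀ z ∈ S, z.1 = t)
    (h1 : ∀ z ∈ S, 2 ^ t * (lo z + G) ≤ N)
    (h2 : ∀ i ∈ S, ∀ j ∈ S, i.2 < j.2 → lo i + G ≤ lo j) :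
    (∑ z ∈ S, (2 : ℝ) ^ z.1) * G ≤ N := by
  have hp : 0 < 2 ^ t := by positivity
  have := pack S lo (fun _ => G) 0 (N / 2 ^ t) (fun z hz => ⟨Nat.zero_le _, by
      rw [zero_add, Nat.le_div_iff_mul_le hp, mul_comm]; exact h1 z hz⟩)
    (fun i hi j hj hij => by
      rcases lt_trichotomy i.2 j.2 with c | c | c
      · exact Or.inl (h2 i hi j hj c)
      · exact (hij (Prod.ext ((h0 i hi).trans (h0 j hj).symm) c)).elim
      · exact Or.inr (h2 j hj i hi c))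
  rw [sum_const, smul_eq_mul, Nat.le_div_iff_mul_le hp] at this
  rw [sum_congr rfl (fun z hz => by rw [h0 z hz]), sum_const, nsmul_eq_mul]
  have h3 : ((S.card * G * 2 ^ t : ℕ) : ℝ) ≤ N := by exact_mod_cast this
  push_cast at h3
  linarith

lemma SR_triv (i N a L : ℕ) : SR p i N a L ≤ L * N := by
  classical
  have := cov (OmR p i N a L) (Ico a (a + L)) (fun t => (OmR p i N a L).filter (fun z => z.1 = t))
    (fun z => (2 : ℝ) ^ z.1) (fun _ => by positivity) (fun z hz =>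
      ⟨z.1, mem_Ico.2 ⟨(mem_OmR.1 hz).1, (mem_OmR.1 hz).2.1⟩, mem_filter.2 ⟨hz, rfl⟩⟩)
  refine this.trans ((sum_le_card_nsmul _ _ (N : ℝ) (fun t _ => ?_)).trans (by simp))
  have := pack_scale ((OmR p i N a L).filter (fun z => z.1 = t)) t N 1 (fun z => z.2 - 2)
    (fun z hz => (mem_filter.1 hz).2) (fun z hz => by
      obtain ⟨b1, b2⟩ := mem_filter.1 hz
      obtain ⟨_, _, c1, _, _, c2⟩ := mem_OmR.1 b1
      rw [show z.2 - 2 + 1 = z.2 - 1 by omega, ← b2]; exact c2.le)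
    (fun i hi j hj c => by
      have := (mem_OmR.1 (mem_filter.1 hi).1).2.2.1
      omega)
  simpa using this

lemma alive [Fact p.Prime] (S : Finset (ℕ × ℕ)) (T N : ℕ)
    (h : ∀ z ∈ S, T ≤ z.1 ∧ Og p (z.1 - T) N z) : ∑ z ∈ S, (2 : ℝ) ^ z.1 ≤ 2 * N := by
  have hp : 0 < 2 ^ T := by positivity
  have key : ∀ i ∈ S, ∀ j ∈ S, 2 ^ (i.1 - T) * (i.2 - 1) < 2 ^ (j.1 - T) * (j.2 - 1) →
      2 ^ (i.1 - T) * (i.2 - 1) + 2 ^ (i.1 - T) ≤ 2 ^ (j.1 - T) * (j.2 - 1) := by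
    intro i hi j hj c
    obtain ⟨_, a1, a2, a3, _⟩ := h i hi
    obtain ⟨_, b1, b2, b3, _⟩ := h j hj
    by_contra hc
    refine left_ne b1 b2 b3 (a3.win (by omega) _ c ?_)
    rw [show i.2 + 1 = (i.2 - 1) + 2 by omega, mul_add]; omega
  have := pack S (fun z => 2 ^ (z.1 - T) * (z.2 - 1)) (fun z => 2 ^ (z.1 - T)) 0 (2 * (N / 2 ^ T))
    (fun z hz => ⟨Nat.zero_le _, by
      obtain ⟨a0, a1, _, _, a4⟩ := h z hz
      have b1 : 2 ^ (z.1 - T) * (z.2 - 1) ≤ N / 2 ^ T := by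
        rw [Nat.le_div_iff_mul_le hp, mul_right_comm, ← pow_add, Nat.sub_add_cancel a0]
        exact a4.le
      have b2 := Nat.mul_le_mul_left (2 ^ (z.1 - T)) (show 1 ≤ z.2 - 1 by omega)
      omega⟩)
    (fun i hi j hj hij => by
      rcases lt_trichotomy (2 ^ (i.1 - T) * (i.2 - 1)) (2 ^ (j.1 - T) * (j.2 - 1)) with c | c | c
      · exact Or.inl (key i hi j hj c)
      · obtain ⟨a0, a1, a2, a3, _⟩ := h i hi
        obtain ⟨b0, b1, b2, b3, _⟩ := h j hj
        have := start_inj a1 b1 a2 b2 a3 b3 c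
        exact (hij (Prod.ext (by omega) this.1)).elim
      · exact Or.inr (key j hj i hi c))
  have h3 : 2 ^ T * ∑ z ∈ S, 2 ^ (z.1 - T) ≤ 2 * N := by
    have a1 := Nat.mul_le_mul_left (2 ^ T) this
    have a2 := Nat.mul_div_le N (2 ^ T)
    rw [mul_left_comm] at a1
    omega
  rw [mul_sum, sum_congr rfl (fun z hz => by
    rw [← pow_add, Nat.add_sub_cancel' (h z hz).1])] at h3
  exact_mod_cast h3

lemma SO_le [Fact p.Prime] (i U N a L : ℕ) :
    (2 - 1 / 2 ^ U) * SO p (i + U) N (a + U) L ≤ SR p i N a (L + U) := by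
  classical
  have e : (2 - 1 / 2 ^ U : ℝ) = ∑ u ∈ range (U + 1), 1 / 2 ^ u := by
    induction U with
    | zero => norm_num
    | succ U ih => rw [sum_range_succ, ← ih, pow_succ]; field_simp; ring
  set φ : ℕ × (ℕ × ℕ) → ℕ × ℕ := fun w => (w.2.1 - w.1, 2 ^ w.1 * (w.2.2 - 1) + 1) with hφ
  have inj : Set.InjOn φ (range (U + 1) ×ˢ OmO p (i + U) N (a + U) L : Finset _) := by
    intro w hw w' hw' he
    obtain ⟨a1, a2⟩ := mem_product.1 (mem_coe.1 hw)
    obtain ⟨b1, b2⟩ := mem_product.1 (mem_coe.1 hw')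
    obtain ⟨a3, _, a4, a5, a6, _⟩ := mem_OmO.1 a2
    obtain ⟨b3, _, b4, b5, b6, _⟩ := mem_OmO.1 b2
    rw [mem_range] at a1 b1
    simp only [hφ, Prod.mk.injEq, add_left_inj] at he
    have := start_inj a4 b4 a5 b5 (a6.mono (by omega)) (b6.mono (by omega)) he.2
    exact Prod.ext this.2 (Prod.ext (by omega) this.1)
  calc (2 - 1 / 2 ^ U) * SO p (i + U) N (a + U) L
      = ∑ w ∈ range (U + 1) ×ˢ OmO p (i + U) N (a + U) L, (2 : ℝ) ^ (φ w).1 := by
        rw [e, SO, sum_mul_sum, sum_product]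
        refine sum_congr rfl (fun u hu => sum_congr rfl (fun z hz => ?_))
        have a1 := (mem_OmO.1 hz).1
        rw [mem_range] at hu
        simp only [hφ]
        rw [pow_sub₀ _ (by norm_num) (by omega)]; ring
    _ = ∑ z ∈ (range (U + 1) ×ˢ OmO p (i + U) N (a + U) L).image φ, (2 : ℝ) ^ z.1 :=
        (sum_image (f := fun z => (2 : ℝ) ^ z.1) inj).symm
    _ ≤ _ := by
        refine sum_le_sum_of_subset_of_nonneg (fun z hz => ?_) (fun _ _ _ => by positivity)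
        obtain ⟨⟨u, τ, o⟩, hw, rfl⟩ := mem_image.1 hz
        obtain ⟨a1, a2⟩ := mem_product.1 hw
        obtain ⟨a3, a7, a4, a5, a6, a8⟩ := mem_OmO.1 a2
        rw [mem_range] at a1
        simp only at a1 a3 a4 a5 a6 a7 a8
        have hp : 0 < 2 ^ u := by positivity
        have b1 := Nat.mul_le_mul_left (2 ^ u) (show 1 ≤ o - 1 by omega)
        refine mem_OmR.2 ⟨by simp only [hφ]; omega, by simp only [hφ]; omega, by
          simp only [hφ]; omega, ?_, ?_, ?_⟩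
        · simp only [hφ, Nat.add_sub_cancel]
          exact left_ne a4 a5 (a6.mono (by omega))
        · refine Lv.down (s := u) (o := o) (by omega) (a6.mono (by omega)) (by simp [hφ]) ?_
          simp only [hφ]
          rw [show o + 1 = (o - 1) + 2 by omega, mul_add]; omega
        · simp only [hφ, Nat.add_sub_cancel]
          rwa [← mul_assoc, ← pow_add, Nat.sub_add_cancel (by omega)]

open Classical in
noncomputable def pv (p i x : ℕ) : ℕ := Nat.findGreatest (Lv p i) (x - 1)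

lemma pv_ge {i x y : ℕ} (h : y < x) (hy : Lv p i y) : y ≤ pv p i x := by
  classical
  exact Nat.le_findGreatest (by omega) hy

lemma pv_spec {i x y : ℕ} (h : y < x) (hy : Lv p i y) : Lv p i (pv p i x) := by
  classical
  exact Nat.findGreatest_spec (m := y) (by omega) hy

lemma pv_le (i x : ℕ) : pv p i x ≤ x - 1 := by
  classical
  exact Nat.findGreatest_le _

lemma life_uniq {o s s' : ℕ} (h : Lv p s o) (hd : ff p (2 ^ (s + 1) * o) ≠ 0) (h' : Lv p s' o)
    (hd' : ff p (2 ^ (s' + 1) * o) ≠ 0) : s = s' := by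
  rcases lt_trichotomy s s' with c | c | c
  · exact (hd (h' _ (by omega))).elim
  · exact c
  · exact (hd' (h _ (by omega))).elim

def Sm (p q r k : ℕ) (w z : ℕ × ℕ) : Prop :=
  ∃ s, w.1 = z.1 + s + k + 2 ∧ Lv p s w.2 ∧ ff p (2 ^ (s + 1) * w.2) ≠ 0 ∧
    2 ^ (s + k + 2) * (w.2 - 1) < pv p q z.2 + 7 * 2 ^ r ∧
    z.2 < 2 ^ (s + k + 2) * (w.2 + 1) + 3 * 2 ^ r ∧ pv p q z.2 + 2 ^ k * (p * q) ≤ z.2 + 2 ^ r

open Classical in
lemma small_group {q r k Q N a L : ℕ} (hQ : Q + 11 * 2 ^ r = p * q) (hQ0 : 0 < Q) (w : ℕ × ℕ)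
    (hw : 1 ≤ w.2) : ∑ z ∈ (OmR p q N a L).filter (Sm p q r k w), (2 : ℝ) ^ z.1
      ≤ 1 / 2 ^ k * (2 / Q * 2 ^ w.1) := by
  rcases ((OmR p q N a L).filter (Sm p q r k w)).eq_empty_or_nonempty with h | ⟨z0, hz0⟩
  · rw [h, sum_empty]; positivity
  obtain ⟨s, s1, s2, s3, -⟩ := (mem_filter.1 hz0).2
  have hk := Nat.mul_le_mul_right (11 * 2 ^ r) (Nat.one_le_two_pow (n := k))
  have hk2 : 2 ^ k * (p * q) = 2 ^ k * Q + 2 ^ k * (11 * 2 ^ r) := by rw [← hQ]; ring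
  have all : ∀ z ∈ (OmR p q N a L).filter (Sm p q r k w), z.1 = z0.1 ∧
      2 ^ (s + k + 2) * (w.2 - 1) < pv p q z.2 + 7 * 2 ^ r ∧
      z.2 < 2 ^ (s + k + 2) * (w.2 + 1) + 3 * 2 ^ r ∧
      pv p q z.2 + 10 * 2 ^ r + 2 ^ k * Q ≤ z.2 := by
    intro z hz
    obtain ⟨s', t1, t2, t3, t4, t5, t6⟩ := (mem_filter.1 hz).2
    obtain rfl := life_uniq s2 s3 t2 t3
    exact ⟨by omega, t4, t5, by omega⟩
  have := pack ((OmR p q N a L).filter (Sm p q r k w)) (fun z => pv p q z.2 + 7 * 2 ^ r)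
    (fun _ => 2 ^ k * Q) (2 ^ (s + k + 2) * (w.2 - 1)) (2 ^ (s + k + 2) * 2) (fun z hz => by
      obtain ⟨_, a2, a3, a4⟩ := all z hz
      rw [show w.2 + 1 = (w.2 - 1) + 2 by omega, mul_add] at a3
      constructor <;> omega)
    (fun i hi j hj hij => by
      obtain ⟨a1, _, _, a4⟩ := all i hi
      obtain ⟨b1, _, _, b4⟩ := all j hj
      rcases lt_trichotomy i.2 j.2 with c | c | c
      · have := pv_ge c (mem_OmR.1 (mem_filter.1 hi).1).2.2.2.2.1
        left; omega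
      · exact (hij (Prod.ext (a1.trans b1.symm) c)).elim
      · have := pv_ge c (mem_OmR.1 (mem_filter.1 hj).1).2.2.2.2.1
        right; omega)
  rw [sum_const, smul_eq_mul] at this
  rw [sum_congr rfl (fun z hz => by rw [(all z hz).1]), sum_const, nsmul_eq_mul, s1]
  have h3 : ((((OmR p q N a L).filter (Sm p q r k w)).card * (2 ^ k * Q) : ℕ) : ℝ)
      ≤ (2 ^ (s + k + 2) * 2 : ℕ) := by exact_mod_cast this
  push_cast at h3
  have hQ1 : (0 : ℝ) < Q := by exact_mod_cast hQ0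
  rw [show (1 : ℝ) / 2 ^ k * (2 / Q * 2 ^ (z0.1 + s + k + 2))
    = (2 ^ (s + k + 2) * 2) / (2 ^ k * Q) * 2 ^ z0.1 by field_simp; ring]
  exact mul_le_mul_of_nonneg_right ((le_div_iff₀ (by positivity)).2 h3) (by positivity)

theorem main_count [Fact p.Prime] (h2 : (2 : ZMod p) ≠ 0) {σ q r s0 Q : ℕ} (hq : p ^ σ = q)
    (hr : 32 * 2 ^ r ≤ q) (hord : ∀ k, 1 ≤ k → (q : ℤ) ∣ 4 ^ k - 1 → q * q < 2 ^ k)
    (hQ : Q + 11 * 2 ^ r = p * q) (hs0 : ∀ s, Q ≤ 2 ^ (s + 3) → s0 ≤ s) (hrs : r ≤ s0)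
    (N a L : ℕ) : SR p q N a L ≤ 4 / q * N + L * (1 / (2 ^ r * q) * N)
      + 4 / Q * (SO p s0 N (a + s0) L + 2 * N) := by
  classical
  have hR : 0 < 2 ^ r := by positivity
  have hp1 := Nat.mul_le_mul_right q (Fact.out : p.Prime).one_le
  have hQ0 : 0 < Q := by omega
  have hq0 : (0 : ℝ) < q := by
    have : 0 < q := by omega
    exact_mod_cast this
  have lem := fun x x' => lemU (x := x) (x' := x') (σ := σ) (r := r) h2
  have fst := fun x => first_ge (x := x) (σ := σ) h2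
  rw [hq] at lem fst
  set Ω := OmR p q N a L with hΩ
  set P1 : ℕ × ℕ → Prop := fun z => ¬ ∃ y < z.2, Lv p q y with hP1
  set P2 : ℕ × ℕ → Prop := fun z => pv p q z.2 + 2 ^ r * q < z.2 with hP2
  have e1 := sum_filter_add_sum_filter_not Ω P1 (fun z => (2 : ℝ) ^ z.1)
  have e2 := sum_filter_add_sum_filter_not (Ω.filter (fun z => ¬ P1 z)) P2 (fun z => (2 : ℝ) ^ z.1)
  have b1 : ∑ z ∈ Ω.filter P1, (2 : ℝ) ^ z.1 ≤ 4 / q * N := by
    have := pack (Ω.filter P1) (fun z => 2 ^ z.1) (fun z => 2 ^ z.1) 0 (2 * (N / (q - 1)))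
      (fun z hz => ⟨Nat.zero_le _, by
        obtain ⟨_, _, _, _, c1, c2⟩ := mem_OmR.1 (mem_filter.1 hz).1
        have c3 := fst _ c1
        have c4 := Nat.mul_le_mul_left (2 ^ z.1) (show q - 1 ≤ z.2 - 1 by omega)
        have c5 : 2 ^ z.1 ≤ N / (q - 1) := (Nat.le_div_iff_mul_le (by omega)).2 (by omega)
        omega⟩)
      (fun i hi j hj hij => by
        have c0 : i.2 = j.2 := by
          rcases lt_trichotomy i.2 j.2 with c | c | c
          · exact ((mem_filter.1 hj).2 ⟨_, c, (mem_OmR.1 (mem_filter.1 hi).1).2.2.2.2.1⟩).elim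
          · exact c
          · exact ((mem_filter.1 hi).2 ⟨_, c, (mem_OmR.1 (mem_filter.1 hj).1).2.2.2.2.1⟩).elim
        rcases lt_trichotomy i.1 j.1 with c | c | c
        · have := Nat.pow_le_pow_right (show 0 < 2 by norm_num) (Nat.succ_le_of_lt c)
          rw [Nat.succ_eq_add_one, pow_succ] at this
          left; omega
        · exact (hij (Prod.ext c c0)).elim
        · have := Nat.pow_le_pow_right (show 0 < 2 by norm_num) (Nat.succ_le_of_lt c)
          rw [Nat.succ_eq_add_one, pow_succ] at this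
          right; omega)
    have c1 : (∑ z ∈ Ω.filter P1, 2 ^ z.1) * q ≤ 4 * N := by
      have c2 := Nat.div_mul_le_self N (q - 1)
      have c3 := Nat.mul_le_mul this (show q ≤ 2 * (q - 1) by omega)
      rw [show 2 * (N / (q - 1)) * (2 * (q - 1)) = 4 * (N / (q - 1) * (q - 1)) by ring] at c3
      omega
    rw [div_mul_eq_mul_div, le_div_iff₀ hq0]
    exact_mod_cast c1
  have b2 : ∑ z ∈ (Ω.filter (fun z => ¬ P1 z)).filter P2, (2 : ℝ) ^ z.1
      ≤ L * (1 / (2 ^ r * q) * N) := by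
    have := cov ((Ω.filter (fun z => ¬ P1 z)).filter P2) (Ico a (a + L))
      (fun t => ((Ω.filter (fun z => ¬ P1 z)).filter P2).filter (fun z => z.1 = t))
      (fun z => (2 : ℝ) ^ z.1) (fun _ => by positivity) (fun z hz => by
        have c := mem_OmR.1 (mem_filter.1 (mem_filter.1 hz).1).1
        exact ⟨z.1, mem_Ico.2 ⟨c.1, c.2.1⟩, mem_filter.2 ⟨hz, rfl⟩⟩)
    refine this.trans ((sum_le_card_nsmul _ _ (1 / (2 ^ r * q) * N : ℝ) (fun t _ => ?_)).trans
      (by simp))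
    have := pack_scale (((Ω.filter (fun z => ¬ P1 z)).filter P2).filter (fun z => z.1 = t)) t N
      (2 ^ r * q) (fun z => pv p q z.2) (fun z hz => (mem_filter.1 hz).2) (fun z hz => by
        obtain ⟨c1, c2⟩ := mem_filter.1 hz
        obtain ⟨c3, c4⟩ := mem_filter.1 c1
        obtain ⟨_, _, _, _, _, c5⟩ := mem_OmR.1 (mem_filter.1 c3).1
        rw [← c2]
        exact (Nat.mul_le_mul_left _ (by simp only [hP2] at c4; omega)).trans c5.le)
      (fun i hi j hj c => by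
        obtain ⟨c3, c4⟩ := mem_filter.1 (mem_filter.1 hi).1
        have := pv_ge c (mem_OmR.1 (mem_filter.1 c3).1).2.2.2.2.1
        simp only [hP2] at c4; omega)
    rw [div_mul_eq_mul_div, one_mul, le_div_iff₀ (by positivity)]
    exact_mod_cast this
  set W := OmO p s0 N (a + s0) L ∪
    (box N (a + s0 + L) N).filter (fun z => Og p (z.1 - (a + s0 + L)) N z) with hW
  have b3 : ∑ z ∈ (Ω.filter (fun z => ¬ P1 z)).filter (fun z => ¬ P2 z), (2 : ℝ) ^ z.1
      ≤ 4 / Q * (SO p s0 N (a + s0) L + 2 * N) := by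
    have := cov ((Ω.filter (fun z => ¬ P1 z)).filter (fun z => ¬ P2 z)) (range r ×ˢ W)
      (fun i => Ω.filter (Sm p q r i.1 i.2)) (fun z => (2 : ℝ) ^ z.1) (fun _ => by positivity)
      (fun z hz => by
        obtain ⟨c1, c2⟩ := mem_filter.1 hz
        obtain ⟨c3, c4⟩ := mem_filter.1 c1
        obtain ⟨d1, d2, d3, d4, d5, d6⟩ := mem_OmR.1 c3
        simp only [hP1, not_not] at c4
        simp only [hP2, not_lt] at c2
        obtain ⟨y, y1, y2⟩ := c4
        have f1 := pv_spec y1 y2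
        have f2 := pv_le (p := p) q z.2
        have f3 : pv p q z.2 ≠ z.2 - 1 := fun h => d4 (by rw [← h]; exact f1.zero)
        obtain ⟨k, k1, o, s, g1, g2, g3, g4, g5, g6, g7⟩ :=
          lem _ _ f1 d5 ⟨z.2 - 1, by omega, by omega, d4⟩ hr c2 hord
        have hk := Nat.mul_le_mul_right (11 * 2 ^ r) (Nat.one_le_two_pow (n := k))
        have hk2 : 2 ^ k * (p * q) = 2 ^ k * Q + 2 ^ k * (11 * 2 ^ r) := by rw [← hQ]; ring
        have g8 : s0 ≤ s := hs0 s (by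
          refine Nat.le_of_mul_le_mul_left (c := 2 ^ k) ?_ (by positivity)
          rw [show o + 1 = (o - 1) + 2 by omega, mul_add] at g6
          rw [show 2 ^ k * 2 ^ (s + 3) = 2 ^ (s + k + 2) * 2 by ring]
          omega)
        have g9 : 2 ^ (z.1 + s + k + 2) * (o - 1) < N := by
          rw [show 2 ^ (z.1 + s + k + 2) * (o - 1) = 2 ^ z.1 * (2 ^ (s + k + 2) * (o - 1)) by ring]
          exact lt_of_le_of_lt (Nat.mul_le_mul_left _ (by omega)) d6
        refine ⟨(k, (z.1 + s + k + 2, o)), mem_product.2 ⟨mem_range.2 k1, ?_⟩,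
          mem_filter.2 ⟨c3, s, rfl, g3, g4, g5, g6, g7⟩⟩
        by_cases c : z.1 + s + k + 2 < a + s0 + L
        · exact mem_union_left _ (mem_OmO.2 ⟨by simp only; omega, c, g1, g2, g3.mono g8, g9⟩)
        · refine mem_union_right _ (mem_filter.2 ⟨?_, g1, g2, g3.mono (by simp only; omega), g9⟩)
          have h1 := Nat.mul_le_mul_left (2 ^ (z.1 + s + k + 2)) (show 1 ≤ o - 1 by omega)
          have h3 := Nat.lt_two_pow_self (n := z.1 + s + k + 2)
          simp only [box, mem_product, mem_Ico, mem_range]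
          exact ⟨⟨by omega, by omega⟩, lt_of_pow_mul g9⟩)
    refine this.trans ?_
    have hQ1 : (0 : ℝ) < Q := by exact_mod_cast hQ0
    have c1 : ∑ w ∈ W, (2 : ℝ) ^ w.1 ≤ SO p s0 N (a + s0) L + 2 * N := by
      have c2 := sum_union_inter (s₁ := OmO p s0 N (a + s0) L)
        (s₂ := (box N (a + s0 + L) N).filter (fun z => Og p (z.1 - (a + s0 + L)) N z))
        (f := fun z => (2 : ℝ) ^ z.1)
      have c3 := alive ((box N (a + s0 + L) N).filter (fun z => Og p (z.1 - (a + s0 + L)) N z))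
        (a + s0 + L) N (fun z hz =>
          ⟨(mem_Ico.1 (mem_product.1 (mem_filter.1 hz).1).1).1, (mem_filter.1 hz).2⟩)
      have c4 : 0 ≤ ∑ z ∈ OmO p s0 N (a + s0) L ∩
          (box N (a + s0 + L) N).filter (fun z => Og p (z.1 - (a + s0 + L)) N z), (2 : ℝ) ^ z.1 :=
        sum_nonneg (fun _ _ => by positivity)
      unfold SO
      linarith
    calc _ ≤ ∑ i ∈ range r ×ˢ W, (1 : ℝ) / 2 ^ i.1 * (2 / Q * 2 ^ i.2.1) := by
          refine sum_le_sum (fun i hi => small_group hQ hQ0 _ ?_)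
          rcases mem_union.1 (mem_product.1 hi).2 with c | c
          · have := (mem_OmO.1 c).2.2.1; omega
          · have := (mem_filter.1 c).2.1; omega
      _ = (∑ k ∈ range r, (1 : ℝ) / 2 ^ k) * (2 / Q * ∑ w ∈ W, (2 : ℝ) ^ w.1) := by
          rw [sum_product, mul_sum W, sum_mul_sum]
      _ ≤ 2 * (2 / Q * (SO p s0 N (a + s0) L + 2 * N)) := by
          refine mul_le_mul ?_ (mul_le_mul_of_nonneg_left c1 (by positivity)) (by positivity)
            (by norm_num)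
          simpa using sum_geometric_two_le r
      _ = _ := by ring
  unfold SR
  linarith

end

section


open Finset

variable {p : ℕ}

noncomputable def bb (c e : ℕ → ℝ) (τ : ℕ → ℕ) (σ0 : ℕ) (σ : ℕ) : ℝ :=
  if _h : σ0 ≤ σ ∧ τ σ < σ then e σ + c σ * bb c e τ σ0 (τ σ) else 1
termination_by σ
decreasing_by exact _h.2

lemma bb_ge {c e : ℕ → ℝ} {τ : ℕ → ℕ} {σ0 σ : ℕ} (h : σ0 ≤ σ) (h' : τ σ < σ) :
    bb c e τ σ0 σ = e σ + c σ * bb c e τ σ0 (τ σ) := by
  rw [bb, dif_pos ⟨h, h'⟩]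

lemma bb_lt {c e : ℕ → ℝ} {τ : ℕ → ℕ} {σ0 σ : ℕ} (h : σ < σ0) : bb c e τ σ0 σ = 1 := by
  rw [bb, dif_neg (by omega)]

lemma bb_mem {c e : ℕ → ℝ} {τ : ℕ → ℕ} {σ0 : ℕ} (hτ : ∀ σ, σ0 ≤ σ → τ σ < σ)
    (hc : ∀ σ, 0 ≤ c σ) (he : ∀ σ, 0 ≤ e σ) (h1 : ∀ σ, σ0 ≤ σ → e σ + c σ ≤ 1) (σ : ℕ) :
    0 ≤ bb c e τ σ0 σ ∧ bb c e τ σ0 σ ≤ 1 := by
  induction σ using Nat.strong_induction_on with
  | _ σ ih =>
    rcases lt_or_ge σ σ0 with h | h
    · rw [bb_lt h]; norm_num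
    · rw [bb_ge h (hτ σ h)]
      obtain ⟨a1, a2⟩ := ih _ (hτ σ h)
      have := mul_le_mul_of_nonneg_left a2 (hc σ)
      exact ⟨add_nonneg (he σ) (mul_nonneg (hc σ) a1), by linarith [h1 σ h]⟩

lemma bb_sum {c e w : ℕ → ℝ} {τ : ℕ → ℕ} {σ0 : ℕ} {C θ : ℝ} (hτ : ∀ σ, σ0 ≤ σ → τ σ < σ)
    (hb : ∀ σ, 0 ≤ bb c e τ σ0 σ) (hw : ∀ σ, 0 ≤ w σ) (hθ : θ < 1)
    (hC : ∀ M, ∑ σ ∈ Ico σ0 M, w σ * e σ ≤ C)
    (hf : ∀ t M, ∑ σ ∈ (Ico σ0 M).filter (fun σ => τ σ = t), w σ * c σ ≤ θ * w t) :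
    Summable (fun σ => w σ * bb c e τ σ0 σ) := by
  have key : ∀ M, σ0 ≤ M → ∑ σ ∈ range M, w σ * bb c e τ σ0 σ
      ≤ (∑ σ ∈ range σ0, w σ + C) / (1 - θ) := by
    intro M hM
    have a1 := sum_range_add_sum_Ico (fun σ => w σ * bb c e τ σ0 σ) hM
    have a2 : ∑ σ ∈ range σ0, w σ * bb c e τ σ0 σ = ∑ σ ∈ range σ0, w σ :=
      sum_congr rfl (fun σ hσ => by rw [bb_lt (mem_range.1 hσ), mul_one])
    have a3 : ∑ σ ∈ Ico σ0 M, w σ * bb c e τ σ0 σ = ∑ σ ∈ Ico σ0 M, w σ * e σ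
        + ∑ σ ∈ Ico σ0 M, w σ * c σ * bb c e τ σ0 (τ σ) := by
      rw [← sum_add_distrib]
      refine sum_congr rfl (fun σ hσ => ?_)
      have := (mem_Ico.1 hσ).1
      rw [bb_ge this (hτ σ this)]; ring
    have a4 : ∑ σ ∈ Ico σ0 M, w σ * c σ * bb c e τ σ0 (τ σ)
        ≤ θ * ∑ σ ∈ range M, w σ * bb c e τ σ0 σ := by
      rw [← sum_fiberwise_of_maps_to (t := range M) (g := τ) (fun σ hσ => by
        have := mem_Ico.1 hσ
        have := hτ σ this.1
        exact mem_range.2 (by omega)), mul_sum]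
      refine sum_le_sum (fun t _ => ?_)
      rw [sum_congr rfl (fun σ hσ => by rw [(mem_filter.1 hσ).2]), ← sum_mul, ← mul_assoc]
      exact mul_le_mul_of_nonneg_right (hf t M) (hb t)
    rw [le_div_iff₀ (by linarith)]
    have := hC M
    linarith
  refine summable_of_sum_range_le (c := (∑ σ ∈ range σ0, w σ + C) / (1 - θ))
    (fun σ => mul_nonneg (hw σ) (hb σ)) (fun M => ?_)
  refine le_trans (sum_le_sum_of_subset_of_nonneg (range_mono (le_max_left M σ0))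
    (fun σ _ _ => mul_nonneg (hw σ) (hb σ))) (key _ (le_max_right _ _))

lemma sq_le_two_pow (n : ℕ) : (n + 4) * (n + 4) ≤ 2 ^ (n + 4) := by
  induction n with
  | zero => norm_num
  | succ n ih => rw [show n + 1 + 4 = (n + 4) + 1 by ring, pow_succ]; nlinarith

lemma three_le [Fact p.Prime] (h2 : (2 : ZMod p) ≠ 0) : 3 ≤ p := by
  have := (Fact.out : p.Prime).two_le
  obtain ⟨k, hk⟩ := odd_p h2
  omega

lemma ord_big [Fact p.Prime] (h2 : (2 : ZMod p) ≠ 0) : ∃ σ1, ∀ σ, σ1 ≤ σ → ∀ k, 1 ≤ k →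
    ((p ^ σ : ℕ) : ℤ) ∣ 4 ^ k - 1 → p ^ σ * p ^ σ < 2 ^ k := by
  have hp : p.Prime := Fact.out
  have h3 := three_le h2
  have hc : Nat.Coprime 4 p := by simpa using cop h2 2 1
  have hx : 1 < 4 ^ (p - 1) := Nat.one_lt_pow (by omega) (by norm_num)
  have hd : p ∣ 4 ^ (p - 1) - 1 := by
    have := Nat.ModEq.pow_totient hc
    rw [Nat.totient_prime hp] at this
    exact (Nat.modEq_iff_dvd' hx.le).1 this.symm
  have hn : ¬ p ∣ 4 ^ (p - 1) := fun h =>
    hp.one_lt.ne' ((hc.symm.pow_right _).eq_one_of_dvd h)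
  set t := padicValNat p (4 ^ (p - 1) - 1) with ht
  refine ⟨2 * t + 4 * p + 5, fun σ hσ k hk h => ?_⟩
  have a1 := padicValNat.pow_sub_pow (p := p) (odd_p h2) hx hd hn (n := k) (by omega)
  rw [one_pow, ← ht] at a1
  have a2 : p ^ σ ∣ (4 ^ (p - 1)) ^ k - 1 := by
    have b1 : p ^ σ ∣ 4 ^ k - 1 := by
      have : ((4 ^ k - 1 : ℕ) : ℤ) = 4 ^ k - 1 := by
        rw [Nat.cast_sub (Nat.one_le_pow _ _ (by norm_num))]; simp
      rw [← this] at h
      exact_mod_cast h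
    refine b1.trans ?_
    rw [← pow_mul, mul_comm, pow_mul]
    simpa using Nat.sub_dvd_pow_sub_pow (4 ^ k) 1 (p - 1)
  have a3 : (4 ^ (p - 1)) ^ k - 1 ≠ 0 := by
    have := Nat.one_lt_pow (show k ≠ 0 by omega) hx
    omega
  have a4 := (padicValNat_dvd_iff_le a3).1 a2
  have a5 : p ^ (σ - t) ∣ k := (padicValNat_dvd_iff_le (by omega)).2 (by omega)
  have a6 := Nat.le_of_dvd hk a5
  obtain ⟨n, hn⟩ : ∃ n, σ - t = n + 4 := ⟨σ - t - 4, by omega⟩
  have a7 : 2 ^ (n + 4) ≤ p ^ (n + 4) := Nat.pow_le_pow_left (by omega) _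
  have a8 := sq_le_two_pow n
  rw [hn] at a6
  have a9 : p * σ + p * σ < k := by
    have b1 : p * σ ≤ p * (2 * (n + 4)) := Nat.mul_le_mul_left _ (by omega)
    have b2 : (4 * p + 1) * (n + 4) ≤ (n + 4) * (n + 4) := Nat.mul_le_mul_right _ (by omega)
    nlinarith
  have b1 : p ^ σ ≤ 2 ^ (p * σ) := by
    rw [pow_mul]; exact Nat.pow_le_pow_left Nat.lt_two_pow_self.le _
  calc p ^ σ * p ^ σ ≤ 2 ^ (p * σ) * 2 ^ (p * σ) := Nat.mul_le_mul b1 b1
    _ < 2 ^ k := by rw [← pow_add]; exact Nat.pow_lt_pow_right (by norm_num) a9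

lemma two_pow_le {u v : ℕ} (hu : 0 < u) (h : 2 ^ v ≤ p ^ u) (σ : ℕ) : 2 ^ (v * σ / u) ≤ p ^ σ := by
  rw [← Nat.pow_le_pow_iff_left hu.ne', ← pow_mul, ← pow_mul, mul_comm σ, pow_mul p]
  refine (Nat.pow_le_pow_right (by norm_num) (Nat.div_mul_le_self _ _)).trans ?_
  rw [pow_mul]
  exact Nat.pow_le_pow_left h _

lemma big_pow (n : ℕ) : 512 * 2 ^ (n + 16) ≤ 3 ^ (n + 16) := by
  induction n with
  | zero => norm_num
  | succ n ih => rw [show n + 1 + 16 = (n + 16) + 1 by ring, pow_succ 2, pow_succ 3]; omega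

theorem SR_sum [Fact p.Prime] (h2 : (2 : ZMod p) ≠ 0) {u v : ℕ} (hu : 0 < u) (huv : u < v)
    (hv : 2 ^ v ≤ p ^ u) (hθ : 9 * (p - 1) * u ≤ 4 * p * v) :
    ∃ B : ℕ → ℝ, Summable B ∧ ∀ σ N a, SR p (p ^ σ) N a ((p - 1) * p ^ σ) ≤ B σ * N := by
  obtain ⟨σ1, hord⟩ := ord_big h2
  have h3 := three_le h2
  have hp3 : (3 : ℝ) ≤ p := by exact_mod_cast h3
  set σ0 := σ1 + 16 + 2 * u + p ^ 4 + 6 with hσ0
  set τ : ℕ → ℕ := fun σ => Nat.log p (v * σ / u - 6) with hτ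
  set Q : ℕ → ℕ := fun σ => p * p ^ σ - 11 * 2 ^ σ with hQ
  set c : ℕ → ℝ := fun σ => 4 / Q σ * (16 / 31) with hc
  set e : ℕ → ℝ := fun σ => 1 / (2 ^ σ * (p ^ σ : ℕ)) with he
  have f1 : ∀ σ, σ0 ≤ σ → 512 * 2 ^ σ ≤ p ^ σ := fun σ hσ => by
    have := big_pow (σ - 16)
    rw [show σ - 16 + 16 = σ by omega] at this
    exact this.trans (Nat.pow_le_pow_left h3 _)
  have f2 : ∀ σ, σ0 ≤ σ → Q σ + 11 * 2 ^ σ = p * p ^ σ ∧ 2 * p ^ σ ≤ Q σ ∧
      640 * (p * p ^ σ) ≤ 651 * Q σ := fun σ hσ => by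
    have a1 := f1 σ hσ
    have a2 := Nat.mul_le_mul_right (p ^ σ) h3
    simp only [hQ]
    omega
  have f3 : ∀ σ, σ0 ≤ σ → σ + 2 ≤ v * σ / u := fun σ hσ => by
    rw [Nat.le_div_iff_mul_le hu]
    have := Nat.mul_le_mul_right σ (Nat.succ_le_of_lt huv)
    rw [Nat.succ_mul] at this
    rw [add_mul, mul_comm σ]
    omega
  have f4 : ∀ σ, σ0 ≤ σ → τ σ < σ := fun σ hσ => by
    have a1 := two_pow_le hu hv σ
    have a2 := Nat.lt_two_pow_self (n := v * σ / u)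
    have a3 := f3 σ hσ
    exact Nat.log_lt_of_lt_pow (by omega) (by omega)
  have f5 : ∀ σ, σ0 ≤ σ → 4 ≤ τ σ ∧ p ^ τ σ + 6 ≤ v * σ / u ∧ v * σ / u < p ^ (τ σ + 1) + 6 :=
    fun σ hσ => by
      have a3 := f3 σ hσ
      have a4 := Nat.pow_log_le_self p (show v * σ / u - 6 ≠ 0 by omega)
      have a5 := Nat.lt_pow_succ_log_self (show 1 < p by omega) (v * σ / u - 6)
      exact ⟨Nat.le_log_of_pow_le (by omega) (by omega), by simp only [hτ]; omega,
        by simp only [hτ]; rw [Nat.succ_eq_add_one] at a5; omega⟩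
  have g1 : ∀ σ, σ0 ≤ σ → (512 : ℝ) ≤ (p ^ σ : ℕ) ∧ 4 / (Q σ : ℝ) ≤ 2 / (p ^ σ : ℕ) :=
    fun σ hσ => by
      have a1 := f1 σ hσ
      have a2 := (f2 σ hσ).2.1
      have a3 := Nat.one_le_two_pow (n := σ)
      have b1 : (512 : ℝ) ≤ (p ^ σ : ℕ) := by exact_mod_cast (by omega : 512 ≤ p ^ σ)
      have b2 : (2 : ℝ) * (p ^ σ : ℕ) ≤ Q σ := by exact_mod_cast a2
      refine ⟨b1, ?_⟩
      rw [div_le_div_iff₀ (by linarith) (by linarith)]; linarith
  have hb := bb_mem (c := c) (e := e) f4 (fun σ => by positivity) (fun σ => by positivity)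
    (fun σ hσ => by
      obtain ⟨a1, a2⟩ := g1 σ hσ
      have a3 : (2 : ℝ) / (p ^ σ : ℕ) ≤ 2 / 512 := div_le_div_of_nonneg_left (by norm_num)
        (by norm_num) a1
      have a4 : e σ ≤ 1 / 512 := one_div_le_one_div_of_le (by norm_num) (by
        have : (1 : ℝ) ≤ 2 ^ σ := one_le_pow₀ (by norm_num)
        nlinarith)
      simp only [hc]; linarith)
  have main : ∀ σ N a L, SR p (p ^ σ) N a L ≤ (bb c e τ σ0 σ * L + 14 / (p ^ σ : ℕ)) * N := by
    intro σ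
    induction σ using Nat.strong_induction_on with
    | _ σ ih =>
      intro N a L
      have hN : (0 : ℝ) ≤ N := by positivity
      rcases lt_or_ge σ σ0 with h | h
      · rw [bb_lt h]
        refine (SR_triv _ _ _ _).trans (mul_le_mul_of_nonneg_right ?_ hN)
        have : (0 : ℝ) ≤ 14 / (p ^ σ : ℕ) := by positivity
        linarith
      obtain ⟨a1, a2, a3⟩ := f5 σ h
      obtain ⟨i, hi⟩ : ∃ i, v * σ / u = i + 4 + 2 := ⟨v * σ / u - 6, by omega⟩
      have b1 := main_count h2 (σ := σ) (r := σ) (s0 := i + 4) rfl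
        (by have := f1 σ h; omega) (hord σ (by omega)) (f2 σ h).1 (fun s hs => by
          have c1 := two_pow_le hu hv σ
          have c2 := (f2 σ h).2.1
          have c3 : 2 ^ (v * σ / u + 1) ≤ 2 ^ (s + 3) := by rw [pow_succ]; omega
          have := (Nat.pow_le_pow_iff_right (by norm_num)).1 c3
          omega) (by have := f3 σ h; omega) N a L
      have b2 := SO_le (p := p) i 4 N (a + i) L
      have b3 := SR_mono (p := p) (N := N) (a := a + i) (L := L + 4) (show p ^ τ σ ≤ i by omega)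
      have b4 := ih _ (f4 σ h) N (a + i) (L + 4)
      obtain ⟨c1, c2⟩ := hb (τ σ)
      have c3 : (14 : ℝ) / (p ^ τ σ : ℕ) ≤ 1 := by
        rw [div_le_one (by positivity)]
        have d1 : 3 ^ 4 ≤ p ^ τ σ :=
          (Nat.pow_le_pow_left h3 _).trans (Nat.pow_le_pow_right (by omega) a1)
        exact_mod_cast (by omega : 14 ≤ p ^ τ σ)
      rw [add_assoc a] at b2
      have b5 : SO p (i + 4) N (a + (i + 4)) L + 2 * N
          ≤ (16 / 31 * (bb c e τ σ0 (τ σ) * L) + 5) * N := by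
        have d1 : (bb c e τ σ0 (τ σ) * (L + 4 : ℕ) + 14 / (p ^ τ σ : ℕ)) * N
            ≤ (bb c e τ σ0 (τ σ) * L + 5) * N := by
          refine mul_le_mul_of_nonneg_right ?_ hN
          push_cast at c3 ⊢; linarith
        norm_num at b2
        linarith
      obtain ⟨d1, d2⟩ := g1 σ h
      have b6 := mul_le_mul_of_nonneg_left b5 (show (0 : ℝ) ≤ 4 / Q σ by positivity)
      have b7 := mul_le_mul_of_nonneg_right d2 hN
      rw [bb_ge h (f4 σ h)]
      simp only [hc, he]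
      have e1 : (14 : ℝ) / (p ^ σ : ℕ) = 4 / (p ^ σ : ℕ) + 5 * (2 / (p ^ σ : ℕ)) := by ring
      rw [e1]
      simp only [hc, he] at b6
      linarith
  have hs := bb_sum (c := c) (e := e) (w := fun σ => (((p - 1) * p ^ σ : ℕ) : ℝ))
    (C := 2 * (p - 1 : ℕ)) (θ := 19 / 20) f4 (fun σ => (hb σ).1) (fun σ => by positivity)
    (by norm_num) (fun M => by
      have a1 : ∀ σ, (((p - 1) * p ^ σ : ℕ) : ℝ) * e σ = (p - 1 : ℕ) * (1 / 2) ^ σ := fun σ => by
        simp only [he]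
        have : (0 : ℝ) < p := by linarith
        push_cast; field_simp
        rw [mul_assoc, ← mul_pow]; simp
      simp only [a1]
      rw [← mul_sum, mul_comm]
      refine mul_le_mul_of_nonneg_right (le_trans (sum_le_sum_of_subset_of_nonneg
        (fun σ hσ => mem_range.2 (mem_Ico.1 hσ).2) (fun _ _ _ => by positivity))
        (sum_geometric_two_le M)) (by positivity))
    (fun t M => by
      set F := (Ico σ0 M).filter (fun σ => τ σ = t) with hF
      rcases F.eq_empty_or_nonempty with h | ⟨σ', hσ'⟩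
      · rw [h, sum_empty]; positivity
      have t4 : 4 ≤ t := by
        rw [← (mem_filter.1 hσ').2]; exact (f5 _ (mem_Ico.1 (mem_filter.1 hσ').1).1).1
      have a1 := pack F (fun σ => v * σ) (fun _ => v) (u * (p ^ t + 6)) (u * ((p - 1) * p ^ t) + v)
        (fun σ hσ => by
          obtain ⟨b1, b2⟩ := mem_filter.1 hσ
          obtain ⟨_, b3, b4⟩ := f5 σ (mem_Ico.1 b1).1
          rw [b2] at b3 b4
          rw [Nat.le_div_iff_mul_le hu, mul_comm] at b3
          rw [Nat.div_lt_iff_lt_mul hu] at b4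
          have b5 : (p ^ (t + 1) + 6) * u = u * (p ^ t + 6) + u * ((p - 1) * p ^ t) := by
            obtain ⟨k, rfl⟩ : ∃ k, p = k + 1 := ⟨p - 1, by omega⟩
            rw [Nat.add_sub_cancel]; ring
          constructor <;> omega)
        (fun i _ j _ hij => by
          rcases lt_or_gt_of_ne hij with b | b
          · exact Or.inl (Nat.mul_le_mul_left v (Nat.succ_le_of_lt b))
          · exact Or.inr (Nat.mul_le_mul_left v (Nat.succ_le_of_lt b)))
      rw [sum_const, smul_eq_mul] at a1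
      have a2 : 243 * F.card ≤ 109 * (p * p ^ t) := by
        have b1 : 3 * 3 ^ 4 ≤ p * p ^ t := Nat.mul_le_mul h3
          ((Nat.pow_le_pow_left h3 _).trans (Nat.pow_le_pow_right (by omega) t4))
        have b2 := Nat.mul_le_mul_right (p ^ t) hθ
        have b3 : v * (9 * F.card) ≤ v * (4 * (p * p ^ t) + 9) := by nlinarith
        have b4 := Nat.le_of_mul_le_mul_left b3 (by omega)
        omega
      have a3 := sum_le_card_nsmul F (fun σ => (((p - 1) * p ^ σ : ℕ) : ℝ) * c σ)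
        (((p - 1 : ℕ) : ℝ) * (21 / 10 / p)) (fun σ hσ => by
          obtain ⟨_, b2, b3⟩ := f2 σ (mem_Ico.1 (mem_filter.1 hσ).1).1
          have b4 : (640 : ℝ) * (p * (p ^ σ : ℕ)) ≤ 651 * Q σ := by exact_mod_cast b3
          have b5 : (0 : ℝ) < Q σ := by
            have : 0 < p ^ σ := by positivity
            exact_mod_cast (by omega : 0 < Q σ)
          rw [Nat.cast_mul, mul_assoc]
          refine mul_le_mul_of_nonneg_left ?_ (by positivity)
          simp only [hc]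
          rw [le_div_iff₀ (by linarith), show ((p ^ σ : ℕ) : ℝ) * (4 / Q σ * (16 / 31)) * p
            = (64 / 31 * (p * (p ^ σ : ℕ))) / Q σ by ring, div_le_iff₀ b5]
          linarith)
      refine a3.trans ?_
      have a4 : (243 : ℝ) * F.card ≤ 109 * (p * (p ^ t : ℕ)) := by exact_mod_cast a2
      rw [nsmul_eq_mul, Nat.cast_mul, mul_left_comm, mul_left_comm (19 / 20 : ℝ)]
      refine mul_le_mul_of_nonneg_left ?_ (by positivity)
      rw [← mul_div_assoc, div_le_iff₀ (by linarith)]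
      have : (0 : ℝ) ≤ p * (p ^ t : ℕ) := by positivity
      linarith)
  refine ⟨fun σ => (((p - 1) * p ^ σ : ℕ) : ℝ) * bb c e τ σ0 σ + 14 * (1 / 2) ^ σ,
    hs.add (summable_geometric_two.mul_left 14), fun σ N a => (main σ N a _).trans ?_⟩
  refine mul_le_mul_of_nonneg_right ?_ (by positivity)
  have : (14 : ℝ) / (p ^ σ : ℕ) ≤ 14 * (1 / 2) ^ σ := by
    rw [one_div, inv_pow, ← div_eq_mul_inv]
    refine div_le_div_of_nonneg_left (by norm_num) (by positivity) ?_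
    push_cast
    exact pow_le_pow_left₀ (by norm_num) (by linarith) _
  linarith

open Classical in
theorem dens [Fact p.Prime] (h2 : (2 : ZMod p) ≠ 0) :
    ∃ I, ∀ N, (((Icc 1 N).filter (Lv p I)).card : ℝ) ≤ N / 2 := by
  have h3 := three_le h2
  obtain ⟨B, hB, hS⟩ : ∃ B : ℕ → ℝ, Summable B ∧
      ∀ σ N a, SR p (p ^ σ) N a ((p - 1) * p ^ σ) ≤ B σ * N := by
    rcases h3.eq_or_lt with h | h
    · subst h; exact SR_sum h2 (u := 2) (v := 3) (by norm_num) (by norm_num) (by norm_num)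
        (by norm_num)
    · have h5 : 5 ≤ p := by obtain ⟨k, hk⟩ := odd_p h2; omega
      exact SR_sum h2 (u := 4) (v := 9) (by norm_num) (by norm_num)
        (le_trans (by norm_num) (Nat.pow_le_pow_left h5 4)) (by omega)
  obtain ⟨F, hF⟩ := summable_iff_vanishing_norm.1 hB (1 / 4) (by norm_num)
  obtain ⟨σ1, hσ1⟩ : ∃ σ1, ∀ σ ∈ F, σ < σ1 :=
    ⟨F.sup id + 1, fun σ hσ => Nat.lt_succ_of_le (le_sup (f := id) hσ)⟩
  refine ⟨p ^ σ1, fun N => ?_⟩
  set I := p ^ σ1 with hI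
  have hI0 : 0 < I := by positivity
  have := cov ((Icc 1 N).filter (Lv p I))
    ((Ico σ1 (N + I)).sigma (fun σ => OmR p (p ^ σ) N (p ^ σ - I) ((p - 1) * p ^ σ)))
    (fun w => Ioo (2 ^ w.2.1 * (w.2.2 - 1)) (2 ^ w.2.1 * (w.2.2 + 1))) (fun _ => (1 : ℝ))
    (fun _ => zero_le_one) (fun m hm => by
      obtain ⟨m1, m2⟩ := mem_filter.1 hm
      obtain ⟨o, s, a1, a2, a3, a4, a5⟩ := trace0 h2 m m2.zero
      have a6 := a3.up (by omega) a4 a5 I m2
      have b1 := Nat.pow_log_le_self p (show s + I ≠ 0 by omega)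
      have b2 := Nat.lt_pow_succ_log_self (show 1 < p by omega) (s + I)
      have b3 : σ1 ≤ Nat.log p (s + I) := Nat.le_log_of_pow_le (by omega) (by omega)
      generalize Nat.log p (s + I) = σ at *
      have b4 := Nat.pow_le_pow_right (show 0 < p by omega) b3
      have b5 := Nat.lt_pow_self (n := σ) (show 1 < p by omega)
      have b6 := Nat.lt_two_pow_self (n := s)
      have b7 := Nat.mul_le_mul_left (2 ^ s) (show 1 ≤ o - 1 by omega)
      have b8 : p ^ σ.succ = p ^ σ + (p - 1) * p ^ σ := by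
        obtain ⟨k, rfl⟩ : ∃ k, p = k + 1 := ⟨p - 1, by omega⟩
        rw [Nat.add_sub_cancel, Nat.succ_eq_add_one]; ring
      have := (mem_Icc.1 m1).2
      exact ⟨⟨σ, s, o⟩, mem_sigma.2 ⟨mem_Ico.2 ⟨b3, by simp only; omega⟩, mem_OmR.2
        ⟨by simp only; omega, by simp only; omega, a1, a2.1, Lv.down (s := 0) (by omega)
          (a6.mono (by simp only; omega)) (by simp only [pow_zero, one_mul]; omega) (by simp),
          by simp only; omega⟩⟩, mem_Ioo.2 ⟨a4, a5⟩⟩)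
  rw [sum_const, nsmul_eq_mul, mul_one, sum_sigma] at this
  refine this.trans ?_
  have c1 := hF (Ico σ1 (N + I)) (disjoint_left.2 (fun σ d1 d2 => by
    have := hσ1 σ d2
    have := (mem_Ico.1 d1).1
    omega))
  have c2 := (le_abs_self _).trans c1.le
  calc _ ≤ ∑ σ ∈ Ico σ1 (N + I), 2 * (B σ * N) := by
        refine sum_le_sum (fun σ _ => le_trans ?_
          (mul_le_mul_of_nonneg_left (hS σ N (p ^ σ - I)) (by norm_num)))
        rw [SR, mul_sum]
        refine sum_le_sum (fun z hz => ?_)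
        have d1 := (mem_OmR.1 hz).2.2.1
        rw [sum_const, nsmul_eq_mul, mul_one, Nat.card_Ioo]
        have d2 : 2 ^ z.1 * (z.2 + 1) - 2 ^ z.1 * (z.2 - 1) - 1 ≤ 2 * 2 ^ z.1 := by
          rw [show z.2 + 1 = (z.2 - 1) + 2 by omega, mul_add]; omega
        exact_mod_cast d2
    _ ≤ N / 2 := by
        rw [← mul_sum, ← sum_mul]
        have : (0 : ℝ) ≤ N := by positivity
        nlinarith

end

section


open Finset

lemma ff_eq_zero {p n : ℕ} : ff p n = 0 ↔ p ∣ aa n := ZMod.natCast_eq_zero_iff _ _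

open Classical in
lemma non_half {p I M : ℕ} (h : (((Icc 1 M).filter (Lv p I)).card : ℝ) ≤ M / 2) :
    (M : ℝ) / 2 ≤ ((Icc 1 M).filter (fun m => ¬ Lv p I m)).card := by
  have := card_filter_add_card_filter_not (s := Icc 1 M) (Lv p I)
  rw [Nat.card_Icc, Nat.add_sub_cancel] at this
  have h3 : ((((Icc 1 M).filter (Lv p I)).card : ℝ))
      + ((Icc 1 M).filter (fun m => ¬ Lv p I m)).card = M := by exact_mod_cast this
  linarith

lemma lower {f : ℕ → ℝ} {P : ℕ} {K : ℝ} (hP : 0 < P) (hK : 0 < K)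
    (h : ∀ N M : ℕ, P * (M + 1) ≤ N → (M : ℝ) ≤ K * f N) :
    ∀ N : ℕ, 4 * P ≤ N → 1 / (2 * K * P) * N ≤ f N := by
  intro N hN
  have a1 := Nat.mul_div_le N P
  have a2 := Nat.lt_mul_div_succ N hP
  have a3 : 4 ≤ N / P := (Nat.le_div_iff_mul_le hP).2 hN
  obtain ⟨M, hM⟩ : ∃ M, N / P = M + 1 := ⟨N / P - 1, by omega⟩
  rw [hM] at a1 a2 a3
  have a4 := h N M a1
  have a5 : N ≤ P * (2 * M) := a2.le.trans (Nat.mul_le_mul_left _ (by omega))
  have a6 : (N : ℝ) ≤ P * (2 * M) := by exact_mod_cast a5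
  have hP1 : (0 : ℝ) < P := by exact_mod_cast hP
  rw [one_div, inv_mul_eq_div, div_le_iff₀ (by positivity)]
  nlinarith

open Classical in
theorem not_div (p : ℕ) (hp : p.Prime) (h2 : p ≠ 2) : ∃ c : ℝ, 0 < c ∧ ∃ N₀ : ℕ, ∀ N ≥ N₀,
    c * N ≤ (((Icc 1 N).filter (fun n => ¬ p ∣ binPart (2 * n))).card : ℝ) := by
  have : Fact p.Prime := ⟨hp⟩
  have h3 : (2 : ZMod p) ≠ 0 := fun h => h2 ((Nat.prime_dvd_prime_iff_eq hp Nat.prime_two).1
    ((ZMod.natCast_eq_zero_iff 2 p).1 (by exact_mod_cast h)))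
  obtain ⟨I, hI⟩ := dens h3
  refine ⟨1 / (2 * (2 * (I + 1)) * (2 ^ I : ℕ)), by positivity, 4 * 2 ^ I,
    lower (f := fun N => (((Icc 1 N).filter (fun n => ¬ p ∣ binPart (2 * n))).card : ℝ))
      (by positivity) (by positivity) (fun N M hM => ?_)⟩
  have a1 := non_half (hI M)
  have a2 := cov ((Icc 1 M).filter (fun m => ¬ Lv p I m))
    (((Icc 1 N).filter (fun n => ¬ p ∣ binPart (2 * n))) ×ˢ range (I + 1))
    (fun w => {w.1 / 2 ^ w.2}) (fun _ => (1 : ℝ)) (fun _ => zero_le_one) (fun m hm => by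
      obtain ⟨m1, m2⟩ := mem_filter.1 hm
      obtain ⟨m3, m4⟩ := mem_Icc.1 m1
      simp only [Lv, not_forall] at m2
      obtain ⟨j, j1, j2⟩ := m2
      have b1 : 2 ^ j * m ≤ 2 ^ I * (M + 1) :=
        Nat.mul_le_mul (Nat.pow_le_pow_right (by norm_num) j1) (by omega)
      have b2 : 0 < 2 ^ j * m := by positivity
      refine ⟨(2 ^ j * m, j), mem_product.2 ⟨mem_filter.2 ⟨mem_Icc.2 ⟨b2, b1.trans hM⟩, ?_⟩,
        mem_range.2 (by omega)⟩, ?_⟩
      · rwa [binPart_two_mul, ← ff_eq_zero]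
      · simp)
  simp only [sum_const, card_singleton, card_product, card_range, nsmul_eq_mul, mul_one,
    Nat.cast_one, Nat.cast_mul, Nat.cast_add] at a2
  linarith

open Classical in
lemma win_low : ∃ c : ℝ, 0 < c ∧ ∃ N₀ : ℕ, ∀ N ≥ N₀, c * N ≤ (((Icc 1 N).filter Wn).card : ℝ) := by
  have : Fact (Nat.Prime 3) := ⟨Nat.prime_three⟩
  obtain ⟨I, hI⟩ := dens (p := 3) (by rw [← one_add_one_eq_two]; exact two_ne)
  refine ⟨1 / (2 * (4 * (I + 7)) * (2 ^ (I + 6) : ℕ)), by positivity, 4 * 2 ^ (I + 6),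
    lower (f := fun N => (((Icc 1 N).filter Wn).card : ℝ))
      (by positivity) (by positivity) (fun N M hM => ?_)⟩
  have a1 := non_half (hI M)
  have a2 := cov ((Icc 1 M).filter (fun m => ¬ Lv 3 I m)) (((Icc 1 N).filter Wn) ×ˢ range (I + 7))
    (fun w => {w.1 / 2 ^ w.2, w.1 / 2 ^ w.2 + 1}) (fun _ => (1 : ℝ)) (fun _ => zero_le_one)
    (fun m hm => by
      obtain ⟨m1, m2⟩ := mem_filter.1 hm
      obtain ⟨m3, m4⟩ := mem_Icc.1 m1
      simp only [Lv, not_forall] at m2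
      obtain ⟨j, j1, j2⟩ := m2
      obtain ⟨k, rfl⟩ : ∃ k, m = k + 1 := ⟨m - 1, by omega⟩
      have hj : 0 < 2 ^ j := by positivity
      obtain ⟨y, hy⟩ : ∃ y, 2 ^ j * (k + 1) = y + 1 :=
        ⟨2 ^ j * (k + 1) - 1, by rw [mul_add]; omega⟩
      obtain ⟨d, d1, x, x1, x2, x3⟩ := winner y 0 (fun _ _ => by simp) (by
        rw [← hy, zero_add, pow_one, A]
        exact_mod_cast fun h => j2 (ff_eq_zero.2 h))
      have he : 0 < 2 ^ (d + j) := by positivity
      have b1 : 2 ^ (d + j) * k ≤ x := by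
        rw [pow_add, mul_assoc]
        exact (Nat.mul_le_mul_left _ (by rw [mul_add] at hy; omega)).trans x1.le
      have b2 : x < 2 ^ (d + j) * (k + 2) := by
        rw [pow_add, mul_assoc]
        exact x2.trans_le (Nat.mul_le_mul_left _ (by rw [mul_add] at hy ⊢; omega))
      have b3 : 2 ^ (d + j) * (k + 2) ≤ 2 ^ (I + 6) * (M + 1) :=
        Nat.mul_le_mul (Nat.pow_le_pow_right (by norm_num) (by omega)) (by omega)
      have c2 : x / 2 ^ (d + j) < k + 2 := (Nat.div_lt_iff_lt_mul he).2 (by rwa [mul_comm])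
      have c3 : k ≤ x / 2 ^ (d + j) := (Nat.le_div_iff_mul_le he).2 (by rwa [mul_comm])
      refine ⟨(x, d + j), mem_product.2 ⟨mem_filter.2 ⟨mem_Icc.2 ⟨by simp only; omega,
        by simp only; omega⟩, x3⟩, mem_range.2 (by simp only; omega)⟩, ?_⟩
      simp only [mem_insert, mem_singleton]
      omega)
  have a3 := sum_le_card_nsmul (((Icc 1 N).filter Wn) ×ˢ range (I + 7))
    (fun w => ∑ _m ∈ ({w.1 / 2 ^ w.2, w.1 / 2 ^ w.2 + 1} : Finset ℕ), (1 : ℝ)) 2 (fun w _ => by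
      rw [sum_const, nsmul_eq_mul, mul_one]; exact_mod_cast card_le_two)
  rw [sum_const, nsmul_eq_mul, mul_one] at a2
  rw [card_product, card_range, nsmul_eq_mul] at a3
  push_cast at a3
  linarith

lemma sg_sum (K : ℕ) (hK : 0 < K) (N : ℕ) :
    ∑ n ∈ range N, (sg n : ℝ) ≤ N / K + 4 * K := by
  have hK0 : (0 : ℝ) < K := by exact_mod_cast hK
  induction N using Nat.strong_induction_on with
  | _ N ih =>
    by_cases hN : N ≤ 4 * K
    · have a1 := sum_le_card_nsmul (range N) (fun n => (sg n : ℝ)) 1 (fun n _ => by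
        unfold sg; split_ifs <;> norm_num)
      rw [card_range, nsmul_eq_mul, mul_one] at a1
      have a2 : (N : ℝ) ≤ 4 * K := by exact_mod_cast hN
      have a3 : (0 : ℝ) ≤ N / K := by positivity
      linarith
    have t : ∀ M, ∑ m ∈ range M, (tm m : ℝ) ≤ 1 := fun M => by
      have := alt_bound (fun _ => 1) (fun _ => le_rfl) (fun _ => zero_le_one) M
      simpa using (le_abs_self _).trans this
    rw [sum_split]
    simp only [sg_odd, sg_two, sg_six, sg_four]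
    have h4 := ih ((N + 3) / 4) (by omega)
    have a1 : (N + 3) / 4 + 3 * K ≤ N := by omega
    have a2 : (((N + 3) / 4 : ℕ) : ℝ) + 3 * K ≤ N := by exact_mod_cast a1
    have a3 : (((N + 3) / 4 : ℕ) : ℝ) / K + 3 ≤ N / K := by
      rw [div_add' _ _ _ hK0.ne']; exact div_le_div_of_nonneg_right a2 hK0.le
    linarith [t (N / 2), t ((N + 5) / 8), t ((N + 1) / 8)]

lemma two_adic' (K : ℕ) (hK : 0 < K) (N : ℕ) :
    (((Icc 1 N).filter (fun n => ¬ N2 n)).card : ℝ) ≤ (N + 1) / 2 + ((N + 1) / K + 4 * K) / 2 := by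
  have h := sg_sum K hK (N + 1)
  have a1 : (((Icc 1 N).filter (fun n => ¬ N2 n)).card : ℝ)
      ≤ ((range (N + 1)).filter (fun n => ¬ N2 n)).card := by
    exact_mod_cast card_le_card (filter_subset_filter _ (fun n hn => by
      simp only [mem_Icc, mem_range] at *; omega))
  have a2 : (((range (N + 1)).filter (fun n => ¬ N2 n)).card : ℝ)
      = ∑ n ∈ range (N + 1), (1 / 2 + (sg n : ℝ) / 2) := by
    rw [card_eq_sum_ones, Nat.cast_sum, sum_filter]
    refine sum_congr rfl (fun n _ => ?_)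
    unfold sg
    by_cases hn : N2 n <;> simp [hn] <;> norm_num
  rw [sum_add_distrib, ← sum_div (range (N + 1)) (fun n => (sg n : ℝ)), sum_const, card_range,
    nsmul_eq_mul] at a2
  push_cast at h a2
  linarith

open Classical in
theorem upper : ∃ c : ℝ, 0 < c ∧ ∃ N₀ : ℕ, ∀ N ≥ N₀,
    (((Icc 1 N).filter (fun n => ∃ x y : ℤ, (binPart (2 * n) : ℤ) = x ^ 2 + y ^ 2)).card : ℝ)
      ≤ (1 / 2 - c) * N := by
  obtain ⟨c, hc, N₀, h⟩ := win_low
  obtain ⟨K, hK⟩ := exists_nat_gt (2 / c)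
  have hK0 : (0 : ℝ) < K := lt_trans (by positivity) hK
  have hK1 : 0 < K := by exact_mod_cast hK0
  obtain ⟨N₁, hN₁⟩ := exists_nat_ge ((4 * (1 + 2 * K) + c) / c)
  refine ⟨c / 2, by positivity, max N₀ N₁, fun N hN => ?_⟩
  have a1 := h N (le_of_max_le_left hN)
  have a2 := two_adic' K hK1 N
  have a3 : ((Icc 1 N).filter (fun n => ∃ x y : ℤ, (binPart (2 * n) : ℤ) = x ^ 2 + y ^ 2)).card
      + ((Icc 1 N).filter Wn).card ≤ ((Icc 1 N).filter (fun n => ¬ N2 n)).card := by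
    rw [← card_union_of_disjoint]
    · refine card_le_card (fun n hn => ?_)
      rw [mem_union, mem_filter, mem_filter] at hn
      rcases hn with ⟨b1, b2⟩ | ⟨b1, b2⟩
      · rw [binPart_two_mul] at b2
        exact mem_filter.2 ⟨b1, fun h => not_sq_of_N2 n h b2⟩
      · exact mem_filter.2 ⟨b1, b2.1⟩
    · rw [disjoint_left]
      intro n h1 h2
      have b2 := (mem_filter.1 h1).2
      rw [binPart_two_mul] at b2
      exact (mem_filter.1 h2).2.2 b2
  have a4 : (((Icc 1 N).filter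
      (fun n => ∃ x y : ℤ, (binPart (2 * n) : ℤ) = x ^ 2 + y ^ 2)).card : ℝ)
      + ((Icc 1 N).filter Wn).card ≤ ((Icc 1 N).filter (fun n => ¬ N2 n)).card := by
    exact_mod_cast a3
  have a5 : ((N : ℝ) + 1) / K ≤ c / 2 * (N + 1) := by
    rw [div_le_iff₀ hK0]
    rw [div_lt_iff₀ hc] at hK
    have : (0 : ℝ) ≤ N + 1 := by positivity
    nlinarith
  have a6 : 4 * (1 + 2 * (K : ℝ)) + c ≤ N * c := by
    rw [← div_le_iff₀ hc]
    exact hN₁.trans (by exact_mod_cast le_of_max_le_right hN)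
  linarith

end

end Pool.Agent.MP_d42cd1_nt.H97
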