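import Pool.Agent.MP_d42cd1_nt.H97.Defs

namespace Pool.Agent.MP_d42cd1_nt.H97

def aa : ℕ → ℕ
  | 0 => 1
  | (n + 1) => aa n + aa ((n + 1) / 2)
decreasing_by all_goals omega

lemma aa_zero : aa 0 = 1 := by rw [aa]

lemma aa_succ (n : ℕ) : aa (n + 1) = aa n + aa ((n + 1) / 2) := by rw [aa]

def SS (n : ℕ) : Set (Multiset ℕ) := {s | s.sum = n ∧ ∀ i ∈ s, ∃ k : ℕ, i = 2 ^ k}

noncomputable def eqv (n : ℕ) :
    {P : Nat.Partition n // ∀ i ∈ P.parts, ∃ k : ℕ, i = 2 ^ k} ≃ SS n where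
  toFun P := ⟨P.1.parts, P.1.parts_sum, P.2⟩
  invFun s := ⟨⟨s.1, fun {i} hi => by
      obtain ⟨k, rfl⟩ := s.2.2 i hi
      exact Nat.pos_of_ne_zero (by positivity), s.2.1⟩, s.2.2⟩
  left_inv _ := rfl
  right_inv _ := rfl

lemma binPart_eq (n : ℕ) : binPart n = (SS n).ncard := by
  unfold binPart
  rw [Nat.card_congr (eqv n)]
  rfl

lemma SS_finite (n : ℕ) : (SS n).Finite := by
  have : Finite (SS n) := Finite.of_equiv _ (eqv n)
  exact Set.toFinite _

lemma SS_zero : SS 0 = {0} := by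
  ext s
  simp only [SS, Set.mem_ofPred_eq, Set.mem_singleton_iff]
  constructor
  · rintro ⟨h1, h2⟩
    by_contra h
    obtain ⟨i, hi⟩ := Multiset.exists_mem_of_ne_zero h
    obtain ⟨k, rfl⟩ := h2 i hi
    have := Multiset.single_le_sum (s := s) (fun _ _ => Nat.zero_le _) _ hi
    have h3 : 0 < 2 ^ k := by positivity
    omega
  · rintro rfl
    simp

lemma SS_split (n : ℕ) :
    SS (n + 1) = (fun s => 1 ::ₘ s) '' SS n ∪ {s | s ∈ SS (n + 1) ∧ 1 ∉ s} := by
  ext s
  simp only [Set.mem_union, Set.mem_image, Set.mem_ofPred_eq]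
  constructor
  · intro h
    by_cases h1 : 1 ∈ s
    · left
      obtain ⟨t, rfl⟩ := Multiset.exists_cons_of_mem h1
      refine ⟨t, ⟨?_, fun i hi => h.2 i (Multiset.mem_cons_of_mem hi)⟩, rfl⟩
      have := h.1
      rw [Multiset.sum_cons] at this
      omega
    · exact Or.inr ⟨h, h1⟩
  · rintro (⟨t, ht, rfl⟩ | h)
    · refine ⟨by rw [Multiset.sum_cons, ht.1]; omega, fun i hi => ?_⟩
      rcases Multiset.mem_cons.1 hi with rfl | hi
      · exact ⟨0, rfl⟩
      · exact ht.2 i hi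
    · exact h.1

lemma no_one (N : ℕ) (s : Multiset ℕ) (h : s ∈ SS N) (h1 : 1 ∉ s) :
    ∃ t : Multiset ℕ, s = t.map (fun i => 2 * i) ∧ N = 2 * t.sum ∧ t ∈ SS t.sum := by
  have key : ∀ i ∈ s, ∃ k : ℕ, i = 2 * 2 ^ k := by
    intro i hi
    obtain ⟨k, rfl⟩ := h.2 i hi
    cases k with
    | zero => exact absurd hi h1
    | succ k => exact ⟨k, by ring⟩
  have e : s = (s.map (fun i => i / 2)).map (fun i => 2 * i) := by
    rw [Multiset.map_map]
    conv_lhs => rw [← Multiset.map_id s]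
    refine Multiset.map_congr rfl (fun i hi => ?_)
    obtain ⟨k, rfl⟩ := key i hi
    simp
  refine ⟨s.map (fun i => i / 2), e, ?_, rfl, ?_⟩
  · rw [← h.1]
    conv_lhs => rw [e]
    rw [Multiset.sum_map_mul_left]
    simp
  · intro i hi
    obtain ⟨j, hj, rfl⟩ := Multiset.mem_map.1 hi
    obtain ⟨k, rfl⟩ := key j hj
    exact ⟨k, by simp⟩

lemma SS_even (m : ℕ) :
    {s | s ∈ SS (2 * m) ∧ 1 ∉ s} = (Multiset.map (fun i => 2 * i)) '' SS m := by
  ext s
  simp only [Set.mem_image, Set.mem_ofPred_eq]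
  constructor
  · rintro ⟨h, h1⟩
    obtain ⟨t, e, hN, ht⟩ := no_one _ s h h1
    have : t.sum = m := by omega
    exact ⟨t, this ▸ ht, e.symm⟩
  · rintro ⟨t, ht, rfl⟩
    refine ⟨⟨?_, ?_⟩, ?_⟩
    · rw [Multiset.sum_map_mul_left]
      simp [ht.1]
    · intro i hi
      obtain ⟨j, hj, rfl⟩ := Multiset.mem_map.1 hi
      obtain ⟨k, rfl⟩ := ht.2 j hj
      exact ⟨k + 1, by ring⟩
    · intro hi
      obtain ⟨j, -, hj⟩ := Multiset.mem_map.1 hi
      omega

lemma SS_odd (m : ℕ) : {s | s ∈ SS (2 * m + 1) ∧ 1 ∉ s} = ∅ := by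
  ext s
  simp only [Set.mem_ofPred_eq, Set.mem_empty_iff_false, iff_false]
  rintro ⟨h, h1⟩
  obtain ⟨t, -, hN, -⟩ := no_one _ s h h1
  omega

lemma card_succ (n : ℕ) :
    (SS (n + 1)).ncard = (SS n).ncard + {s | s ∈ SS (n + 1) ∧ 1 ∉ s}.ncard := by
  have hinj : Function.Injective (fun s : Multiset ℕ => 1 ::ₘ s) :=
    fun s t h => (Multiset.cons_inj_right 1).1 h
  conv_lhs => rw [SS_split]
  rw [Set.ncard_union_eq ?_ ((SS_finite n).image _)
    ((SS_finite (n + 1)).subset (fun s h => h.1)), Set.ncard_image_of_injective _ hinj]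
  rw [Set.disjoint_left]
  rintro s ⟨t, -, rfl⟩ h
  exact h.2 (Multiset.mem_cons_self _ _)

lemma binPart_odd (m : ℕ) : binPart (2 * m + 1) = binPart (2 * m) := by
  rw [binPart_eq, binPart_eq, card_succ, SS_odd]
  simp

lemma binPart_even (m : ℕ) : binPart (2 * (m + 1)) = binPart (2 * m) + binPart (m + 1) := by
  have hinj : Function.Injective (Multiset.map (fun i : ℕ => 2 * i)) :=
    Multiset.map_injective (fun a b h => by simpa using h)
  rw [← binPart_odd m, binPart_eq, binPart_eq, binPart_eq]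
  have e : 2 * (m + 1) = 2 * m + 1 + 1 := by ring
  rw [← Set.ncard_image_of_injective (SS (m + 1)) hinj, ← SS_even, e, card_succ]

lemma binPart_half (n : ℕ) : binPart n = binPart (2 * (n / 2)) := by
  rcases Nat.even_or_odd' n with ⟨m, rfl | rfl⟩
  · congr 1; omega
  · rw [binPart_odd]; congr 1; omega

theorem binPart_two_mul (n : ℕ) : binPart (2 * n) = aa n := by
  induction n using Nat.strong_induction_on with
  | _ n ih =>
    cases n with
    | zero => rw [binPart_eq, aa_zero]; simp [SS_zero]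
    | succ n =>
      rw [binPart_even, aa_succ, ih n (by omega), binPart_half (n + 1), ih _ (by omega)]

end Pool.Agent.MP_d42cd1_nt.H97
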