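import Pool.Agent.MP_d42cd1_nt.H97.Rec

namespace Pool.Agent.MP_d42cd1_nt.H97

open Finset

def tm : ℕ → ℤ
  | 0 => 1
  | (n + 1) => if (n + 1) % 2 = 0 then tm ((n + 1) / 2) else - tm ((n + 1) / 2)
decreasing_by all_goals omega

lemma tm_zero : tm 0 = 1 := by rw [tm]

lemma tm_even (n : ℕ) : tm (2 * n) = tm n := by
  cases n with
  | zero => rfl
  | succ n =>
    have e : 2 * (n + 1) = (2 * n + 1) + 1 := by ring
    rw [e, tm, if_pos (by omega)]
    congr 1; omega

lemma tm_odd (n : ℕ) : tm (2 * n + 1) = - tm n := by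
  rw [tm, if_neg (by omega)]
  congr 2; omega

lemma tm_cases (n : ℕ) : tm n = 1 ∨ tm n = -1 := by
  induction n using Nat.strong_induction_on with
  | _ n ih =>
    rcases Nat.even_or_odd' n with ⟨m, rfl | rfl⟩
    · rcases Nat.eq_zero_or_pos m with rfl | hm
      · exact Or.inl tm_zero
      · rw [tm_even]; exact ih m (by omega)
    · rw [tm_odd]; rcases ih m (by omega) with h | h <;> simp [h]

/-- integer valued version of `aa` -/
def A (n : ℕ) : ℤ := aa n

lemma A_zero : A 0 = 1 := by simp [A, aa_zero]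

lemma A_succ (n : ℕ) : A (n + 1) = A n + A ((n + 1) / 2) := by
  simp [A, aa_succ]

lemma A_odd' (n : ℕ) : A (2 * n + 1) = A (2 * n) + A n := by
  rw [A_succ]; congr 2; omega

lemma A_even' (n : ℕ) : A (2 * (n + 1)) = A (2 * n + 1) + A (n + 1) := by
  have e : 2 * (n + 1) = (2 * n + 1) + 1 := by ring
  rw [e, A_succ]; congr 2; omega

def S (n : ℕ) : ℤ := ∑ j ∈ range (n + 1), A j

lemma S_zero : S 0 = 1 := by simp [S, A_zero]

lemma S_succ (n : ℕ) : S (n + 1) = S n + A (n + 1) := by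
  simp [S, sum_range_succ]

lemma A_odd (n : ℕ) : A (2 * n + 1) = 2 * S n := by
  induction n with
  | zero => rw [A_odd', S_zero]; simp [A_zero]
  | succ n ih => rw [A_odd', A_even', ih, S_succ]; ring

lemma A_even (n : ℕ) : A (2 * n) = 2 * S n - A n := by
  have := A_odd' n
  rw [A_odd] at this
  omega

lemma S_four (n : ℕ) : (S n - tm n) % 4 = 0 := by
  induction n using Nat.strong_induction_on with
  | _ n ih =>
    cases n with
    | zero => rw [S_zero, tm_zero]; rfl
    | succ n =>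
      rcases Nat.even_or_odd' n with ⟨m, rfl | rfl⟩
      · have h1 := ih (2 * m) (by omega)
        have h2 := ih m (by omega)
        rw [S_succ, A_odd, tm_odd]
        rw [tm_even] at h1
        omega
      · have h1 := ih (2 * m + 1) (by omega)
        have h2 := ih m (by omega)
        have h3 := ih (m + 1) (by omega)
        have e : 2 * m + 1 + 1 = 2 * (m + 1) := by ring
        have h4 := S_succ m
        rw [S_succ, e, A_even, tm_even]
        rw [tm_odd] at h1
        omega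

lemma S_odd (n : ℕ) : S n % 2 = 1 := by
  have := S_four n
  rcases tm_cases n with h | h <;> omega

lemma S_eight (m : ℕ) : (S (2 * m + 1) - (4 * ((m : ℤ) + 1) - S m)) % 8 = 0 := by
  induction m with
  | zero =>
    have := S_succ 0
    have h := A_odd 0
    have h0 := S_zero
    simp only [mul_zero, zero_add] at *
    omega
  | succ m ih =>
    have h1 := S_succ (2 * (m + 1))
    have h2 := S_succ (2 * m + 1)
    have e : 2 * m + 1 + 1 = 2 * (m + 1) := by ring
    rw [e] at h2
    have h3 := A_odd (m + 1)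
    have h4 := A_even (m + 1)
    have h5 := S_succ m
    have h6 := S_odd (m + 1)
    push_cast
    omega

lemma S_eight' (m : ℕ) : (S (2 * m) - (4 * ((m : ℤ) + 1) - 3 * S m)) % 8 = 0 := by
  have h1 := S_eight m
  have h2 := S_succ (2 * m)
  have h3 := A_odd m
  omega

/-- the two-adic obstruction -/
def N2 (n : ℕ) : Prop := A n % 8 = 6 ∨ A n % 16 = 12

instance : DecidablePred N2 := fun n => by unfold N2; infer_instance

def sg (n : ℕ) : ℤ := if N2 n then -1 else 1

lemma sg_odd (m : ℕ) : sg (2 * m + 1) = tm m := by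
  have h1 := A_odd m
  have h2 := S_four m
  unfold sg N2
  rcases tm_cases m with h | h <;> split_ifs with hh <;> omega

lemma sg_two (m : ℕ) : sg (8 * m + 2) = tm m := by
  have e : 8 * m + 2 = 2 * (2 * (2 * m) + 1) := by ring
  have h1 := A_even (2 * (2 * m) + 1)
  have h2 := A_odd (2 * m)
  have h3 := S_eight (2 * m)
  have h4 := S_four (2 * m)
  rw [tm_even] at h4
  push_cast at h3
  unfold sg N2
  rw [e]
  rcases tm_cases m with h | h <;> split_ifs with hh <;> omega

lemma sg_six (m : ℕ) : sg (8 * m + 6) = tm m := by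
  have e : 8 * m + 6 = 2 * (2 * (2 * m + 1) + 1) := by ring
  have h1 := A_even (2 * (2 * m + 1) + 1)
  have h2 := A_odd (2 * m + 1)
  have h3 := S_eight (2 * m + 1)
  have h4 := S_four (2 * m + 1)
  rw [tm_odd] at h4
  push_cast at h3
  unfold sg N2
  rw [e]
  rcases tm_cases m with h | h <;> split_ifs with hh <;> omega

lemma sg_four (n : ℕ) : sg (4 * n) = sg n := by
  have e : 4 * n = 2 * (2 * n) := by ring
  have h1 := A_even (2 * n)
  have h2 := A_even n
  have h3 := S_eight' n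
  have h4 := S_odd n
  unfold sg N2
  rw [e]
  rcases Nat.even_or_odd' n with ⟨m, rfl | rfl⟩
  · push_cast at h3
    split_ifs with h h' h' <;> omega
  · have h5 := A_odd m
    have h6 := S_odd m
    push_cast at h3
    split_ifs with h h' h' <;> omega

lemma sum_split (F : ℕ → ℝ) (N : ℕ) :
    ∑ n ∈ range N, F n = ∑ m ∈ range (N / 2), F (2 * m + 1)
      + ∑ m ∈ range ((N + 5) / 8), F (8 * m + 2) + ∑ m ∈ range ((N + 1) / 8), F (8 * m + 6)
      + ∑ m ∈ range ((N + 3) / 4), F (4 * m) := by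
  induction N with
  | zero => simp
  | succ N ih =>
    rw [sum_range_succ, ih]
    by_cases h1 : N % 2 = 1
    · rw [show (N + 1) / 2 = N / 2 + 1 by omega, show (N + 1 + 5) / 8 = (N + 5) / 8 by omega,
        show (N + 1 + 1) / 8 = (N + 1) / 8 by omega, show (N + 1 + 3) / 4 = (N + 3) / 4 by omega,
        sum_range_succ, show 2 * (N / 2) + 1 = N by omega]
      ring
    by_cases h2 : N % 8 = 2
    · rw [show (N + 1) / 2 = N / 2 by omega, show (N + 1 + 5) / 8 = (N + 5) / 8 + 1 by omega,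
        show (N + 1 + 1) / 8 = (N + 1) / 8 by omega, show (N + 1 + 3) / 4 = (N + 3) / 4 by omega,
        sum_range_succ, show 8 * ((N + 5) / 8) + 2 = N by omega]
      ring
    by_cases h3 : N % 8 = 6
    · rw [show (N + 1) / 2 = N / 2 by omega, show (N + 1 + 5) / 8 = (N + 5) / 8 by omega,
        show (N + 1 + 1) / 8 = (N + 1) / 8 + 1 by omega,
        show (N + 1 + 3) / 4 = (N + 3) / 4 by omega,
        sum_range_succ, show 8 * ((N + 1) / 8) + 6 = N by omega]
      ring
    · rw [show (N + 1) / 2 = N / 2 by omega, show (N + 1 + 5) / 8 = (N + 5) / 8 by omega,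
        show (N + 1 + 1) / 8 = (N + 1) / 8 by omega,
        show (N + 1 + 3) / 4 = (N + 3) / 4 + 1 by omega,
        sum_range_succ, show 4 * ((N + 3) / 4) = N by omega]
      ring

lemma alt_even (w : ℕ → ℝ) (hw : ∀ n, w (n + 1) ≤ w n) (j : ℕ) :
    |∑ m ∈ range (2 * j), (tm m : ℝ) * w m| ≤ w 0 - w (2 * j) := by
  induction j with
  | zero => simp
  | succ j ih =>
    have e : 2 * (j + 1) = 2 * j + 1 + 1 := by ring
    rw [e, sum_range_succ, sum_range_succ, tm_odd, tm_even]
    have h1 := hw (2 * j)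
    have h2 := hw (2 * j + 1)
    rw [abs_le] at ih ⊢
    rcases tm_cases j with h | h <;> rw [h] <;> push_cast <;> constructor <;> linarith [ih.1, ih.2]

lemma alt_bound (w : ℕ → ℝ) (hw : ∀ n, w (n + 1) ≤ w n) (h0 : ∀ n, 0 ≤ w n) (M : ℕ) :
    |∑ m ∈ range M, (tm m : ℝ) * w m| ≤ w 0 := by
  rcases Nat.even_or_odd' M with ⟨j, rfl | rfl⟩
  · linarith [alt_even w hw j, h0 (2 * j)]
  · have ih := alt_even w hw j
    have := h0 (2 * j)
    rw [sum_range_succ]
    rw [abs_le] at ih ⊢
    rcases tm_cases (2 * j) with h | h <;> rw [h] <;> push_cast <;> constructor <;>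
      linarith [ih.1, ih.2]

lemma alt_lin (a b : ℝ) (ha : 0 ≤ a) (hb : 1 ≤ b) (M : ℕ) :
    |∑ m ∈ range M, (tm m : ℝ) * (1 / (a * m + b))| ≤ 1 := by
  have := alt_bound (fun m => 1 / (a * m + b)) (fun n => by
    apply one_div_le_one_div_of_le (by positivity)
    push_cast; nlinarith) (fun n => by positivity) M
  refine this.trans ?_
  simp only [Nat.cast_zero, mul_zero, zero_add]
  rw [div_le_one (by linarith)]; exact hb

lemma L_bound (N : ℕ) : |∑ n ∈ range N, (sg n : ℝ) * (1 / n)| ≤ 4 := by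
  induction N using Nat.strong_induction_on with
  | _ N ih =>
    by_cases hN : N ≤ 1
    · interval_cases N <;> simp
    rw [sum_split]
    have h1 := alt_lin 2 1 (by norm_num) le_rfl (N / 2)
    have h2 := alt_lin 8 2 (by norm_num) (by norm_num) ((N + 5) / 8)
    have h3 := alt_lin 8 6 (by norm_num) (by norm_num) ((N + 1) / 8)
    have h4 := ih ((N + 3) / 4) (by omega)
    have e4 : ∑ m ∈ range ((N + 3) / 4), (sg (4 * m) : ℝ) * (1 / ((4 * m : ℕ) : ℝ))
        = (1 / 4) * ∑ n ∈ range ((N + 3) / 4), (sg n : ℝ) * (1 / n) := by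
      rw [mul_sum]
      refine sum_congr rfl (fun m _ => ?_)
      rw [sg_four]; push_cast; ring
    simp only [sg_odd, sg_two, sg_six]
    rw [e4]
    push_cast
    rw [abs_le] at *
    constructor <;> linarith [h1.1, h1.2, h2.1, h2.2, h3.1, h3.2, h4.1, h4.2]

/-- harmonic sum -/
noncomputable def H (N : ℕ) : ℝ := ∑ n ∈ Icc 1 N, (1 / n : ℝ)

lemma two_adic (N : ℕ) :
    ∑ n ∈ (Icc 1 N).filter (fun n => ¬ N2 n), (1 / n : ℝ) ≤ H N / 2 + 2 := by
  have h := L_bound (N + 1)
  have e1 : ∑ n ∈ range (N + 1), (sg n : ℝ) * (1 / n) = ∑ n ∈ Icc 1 N, (sg n : ℝ) * (1 / n) := by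
    symm
    apply sum_subset
    · intro n hn; simp only [mem_Icc, mem_range] at *; omega
    · intro n hn hn'
      have : n = 0 := by simp only [mem_Icc, mem_range] at *; omega
      subst this; simp
  have e2 : ∑ n ∈ (Icc 1 N).filter (fun n => ¬ N2 n), (1 / n : ℝ)
      = H N / 2 + (∑ n ∈ Icc 1 N, (sg n : ℝ) * (1 / n)) / 2 := by
    rw [sum_filter, H, sum_div, sum_div, ← sum_add_distrib]
    refine sum_congr rfl (fun n _ => ?_)
    unfold sg
    by_cases hn : N2 n <;> simp [hn] <;> ring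
  rw [e1, abs_le] at h
  rw [e2]; linarith [h.2]

lemma not_sq_of_N2 (n : ℕ) (h : N2 n) : ¬ ∃ x y : ℤ, A n = x ^ 2 + y ^ 2 := by
  rintro ⟨x, y, e⟩
  have key : ∀ u v : ZMod 16, u ^ 2 + v ^ 2 ≠ 6 ∧ u ^ 2 + v ^ 2 ≠ 14 ∧ u ^ 2 + v ^ 2 ≠ 12 := by
    decide
  have h1 : A n % 16 = 6 ∨ A n % 16 = 14 ∨ A n % 16 = 12 := by unfold N2 at h; omega
  have h2 : ((A n : ℤ) : ZMod 16) = (x : ZMod 16) ^ 2 + (y : ZMod 16) ^ 2 := by
    rw [e]; push_cast; rfl
  have h3 : ((A n % 16 : ℤ) : ZMod 16) = ((A n : ℤ) : ZMod 16) := ZMod.intCast_mod _ 16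
  obtain ⟨k1, k2, k3⟩ := key x y
  rcases h1 with h1 | h1 | h1 <;> rw [h1, h2] at h3
  · exact k1 (by rw [← h3]; rfl)
  · exact k2 (by rw [← h3]; rfl)
  · exact k3 (by rw [← h3]; rfl)

end Pool.Agent.MP_d42cd1_nt.H97
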