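import Pool.Agent.MP_d42cd1_nt.H97.Chk

namespace Pool.Agent.MP_d42cd1_nt.H97

/-- all values on the two-sided window of depth `d` around `M + 1` are divisible by `q` -/
def Zs (q : ℤ) (d M : ℕ) : Prop := ∀ y, 2 ^ d * M < y → y < 2 ^ d * (M + 2) → q ∣ A y

lemma cong_of_Zs {q : ℤ} {d M : ℕ} (h : Zs q d M) (x : ℕ) (hx : 2 ^ (d + 1) * M < x) (n : ℕ) :
    x + n < 2 ^ (d + 1) * (M + 2) → q ∣ A (x + n) - A x := by
  induction n with
  | zero => intro _; simp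
  | succ n ih =>
    intro hn
    have e1 : 2 ^ (d + 1) * M = 2 * (2 ^ d * M) := by ring
    have e2 : 2 ^ (d + 1) * (M + 2) = 2 * (2 ^ d * (M + 2)) := by ring
    have h1 := h ((x + n + 1) / 2) (by omega) (by omega)
    have h2 := ih (by omega)
    rw [← add_assoc, A_succ]
    have : A (x + n) + A ((x + n + 1) / 2) - A x = (A (x + n) - A x) + A ((x + n + 1) / 2) := by ring
    rw [this]; exact dvd_add h2 h1

lemma cong_of_Zs' {q : ℤ} {d M : ℕ} (h : Zs q d M) (x y : ℕ) (hx : 2 ^ (d + 1) * M < x)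
    (hx' : x < 2 ^ (d + 1) * (M + 2)) (hy : 2 ^ (d + 1) * M < y)
    (hy' : y < 2 ^ (d + 1) * (M + 2)) : q ∣ A x - A y := by
  rcases le_total x y with hh | hh
  · obtain ⟨n, rfl⟩ := Nat.exists_eq_add_of_le hh
    have := cong_of_Zs h x hx n hy'
    rw [← dvd_neg]; simpa using this
  · obtain ⟨n, rfl⟩ := Nat.exists_eq_add_of_le hh
    exact cong_of_Zs h y hy n hx'

lemma Zs_of_line {q : ℤ} {M : ℕ} (d : ℕ) : (∀ i ≤ d, q ∣ A (2 ^ i * (M + 1))) → Zs q d M := by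
  induction d with
  | zero =>
    intro h y h1 h2
    have : y = 2 ^ 0 * (M + 1) := by simp only [pow_zero, one_mul] at *; omega
    rw [this]; exact h 0 le_rfl
  | succ d ih =>
    intro h y h1 h2
    have hz := ih (fun i hi => h i (by omega))
    have hp : 0 < 2 ^ (d + 1) := by positivity
    have := cong_of_Zs' hz y (2 ^ (d + 1) * (M + 1)) h1 h2
      (Nat.mul_lt_mul_of_pos_left (by omega) hp) (Nat.mul_lt_mul_of_pos_left (by omega) hp)
    have h3 := dvd_add this (h (d + 1) le_rfl)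
    simpa using h3

lemma not_sq_of_odd (k : ℕ) : ∀ n : ℤ, 3 ^ (2 * k + 1) ∣ n → ¬ 3 ^ (2 * k + 2) ∣ n →
    ¬ ∃ x y : ℤ, n = x ^ 2 + y ^ 2 := by
  have key : ∀ x y : ℤ, 3 ∣ x ^ 2 + y ^ 2 → 3 ∣ x ∧ 3 ∣ y := by
    intro x y h
    have hz : ∀ u v : ZMod 3, u ^ 2 + v ^ 2 = 0 → u = 0 ∧ v = 0 := by decide
    have h1 : ((x ^ 2 + y ^ 2 : ℤ) : ZMod 3) = 0 := (ZMod.intCast_zmod_eq_zero_iff_dvd _ 3).2 h
    push_cast at h1
    obtain ⟨a, b⟩ := hz _ _ h1
    exact ⟨(ZMod.intCast_zmod_eq_zero_iff_dvd _ 3).1 a, (ZMod.intCast_zmod_eq_zero_iff_dvd _ 3).1 b⟩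
  induction k with
  | zero =>
    rintro n h1 h2 ⟨x, y, rfl⟩
    obtain ⟨⟨a, rfl⟩, ⟨b, rfl⟩⟩ := key x y (by simpa using h1)
    exact h2 ⟨a ^ 2 + b ^ 2, by ring⟩
  | succ k ih =>
    rintro n h1 h2 ⟨x, y, rfl⟩
    obtain ⟨⟨a, rfl⟩, ⟨b, rfl⟩⟩ := key x y ((dvd_pow_self 3 (by omega)).trans h1)
    refine ih (a ^ 2 + b ^ 2) ?_ ?_ ⟨a, b, rfl⟩
    · obtain ⟨c, hc⟩ := h1
      refine ⟨c, ?_⟩
      have : (9 : ℤ) * (a ^ 2 + b ^ 2) = 9 * (3 ^ (2 * k + 1) * c) := by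
        rw [show (9 : ℤ) * (3 ^ (2 * k + 1) * c) = 3 ^ (2 * (k + 1) + 1) * c by ring, ← hc]; ring
      linarith
    · rintro ⟨c, hc⟩
      refine h2 ⟨c, ?_⟩
      rw [show (3 * a) ^ 2 + (3 * b) ^ 2 = 9 * (a ^ 2 + b ^ 2) by ring, hc]; ring

/-- not excluded two-adically, but not a sum of two squares -/
def Wn (x : ℕ) : Prop := ¬ N2 x ∧ ¬ ∃ u v : ℤ, A x = u ^ 2 + v ^ 2

lemma winner (M v : ℕ) (h : ∀ j ≤ 6, (3 : ℤ) ^ v ∣ A (2 ^ j * (M + 1)))
    (hn : ¬ (3 : ℤ) ^ (v + 1) ∣ A (M + 1)) :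
    ∃ d ≤ 6, ∃ x, 2 ^ d * M < x ∧ x < 2 ^ d * (M + 2) ∧ Wn x := by
  have hq : (3 : ℤ) ^ v ≠ 0 := by positivity
  have hZ : ∀ d ≤ 6, Zs (3 ^ v) d M := fun d hd => Zs_of_line d (fun i hi => h i (by omega))
  set c : ℤ := A (M + 1) / 3 ^ v with hc
  have hc0 : A (M + 1) = 3 ^ v * c := by
    have := h 0 (by omega)
    simp only [pow_zero, one_mul] at this
    exact (Int.mul_ediv_cancel' this).symm
  have hc3 : ¬ 3 ∣ c := by
    rintro ⟨e, he⟩
    exact hn ⟨e, by rw [hc0, he]; ring⟩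
  have hc6 : (c ^ 5 * c) % 9 = 1 := by
    have hz : ∀ r : ZMod 9, r = 0 ∨ r = 3 ∨ r = 6 ∨ r ^ 5 * r = 1 := by decide
    have h9 : ∀ a b : ℤ, (a : ZMod 9) = (b : ZMod 9) → a % 9 = b % 9 := fun a b hab =>
      (ZMod.intCast_eq_intCast_iff a b 9).1 hab
    rcases hz c with h1 | h1 | h1 | h1
    · have := h9 c 0 (by simpa using h1); omega
    · have := h9 c 3 (by simpa using h1); omega
    · have := h9 c 6 (by simpa using h1); omega
    · have := h9 (c ^ 5 * c) 1 (by simpa using h1); omega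
  set G : ℕ → ℕ → ℕ := fun d k => ((c ^ 5 * (A (2 ^ d * M + k) / 3 ^ v)) % 9).toNat with hG
  set T : ℕ → ℕ → Bool := fun d k => decide (tm (2 ^ d * M + k) = 1) with hT
  have step : ∀ d < 6, ∀ k, 1 ≤ k → k < 2 ^ (d + 1) → ∀ j, (j + 1) / 2 = k →
      G (d + 1) (j + 1) = (G (d + 1) j + G d k) % 9 := by
    intro d hd k hk hk' j hj
    have e1 : 2 ^ (d + 1) * M = 2 * (2 ^ d * M) := by ring
    have e2 : 2 ^ d * (M + 2) = 2 ^ d * M + 2 ^ (d + 1) := by ring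
    have hd1 := hZ d (by omega) (2 ^ d * M + k) (by omega) (by omega)
    have e3 : A (2 ^ (d + 1) * M + (j + 1)) = A (2 ^ (d + 1) * M + j) + A (2 ^ d * M + k) := by
      rw [← add_assoc, A_succ]; congr 2; omega
    simp only [hG]
    rw [e3, Int.add_ediv_of_dvd_right hd1, mul_add]
    omega
  have main : ∀ good : ℕ → Bool, ([true, false].all (fun a => [true, false].all
      (fun b => dfs good 6 [1] [a, b])) = true) →
      ∃ d' < 6, ∃ k', k' < 2 ^ (d' + 1) ∧ T d' k' = true ∧ good (G (d' + 1) (2 * k' + 1)) = true := by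
    intro good hgood
    refine dfs_sound G T 6 good (fun d k => by simp only [hG]; omega)
      (fun d hd k hk hk' => ?_) (fun d hd k hk hk' => step d hd k hk hk' (2 * k) (by omega))
      (fun d k => ?_) (fun d k => ?_) 6 0 le_rfl ?_
    · have := step d hd k hk hk' (2 * k - 1) (by omega)
      rwa [show 2 * k - 1 + 1 = 2 * k by omega] at this
    · simp only [hT]
      rw [show 2 ^ (d + 1) * M + 2 * k = 2 * (2 ^ d * M + k) by ring, tm_even]
    · simp only [hT]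
      rw [show 2 ^ (d + 1) * M + (2 * k + 1) = 2 * (2 ^ d * M + k) + 1 by ring, tm_odd]
      rcases tm_cases (2 ^ d * M + k) with h1 | h1 <;> rw [h1] <;> decide
    · have g1 : G 0 1 = 1 := by
        simp only [hG, pow_zero, one_mul]
        rw [← hc, hc6]; rfl
      have l1 : (List.range' 1 (2 ^ (0 + 1) - 1)).map (G 0) = [1] := by
        have : (List.range' 1 (2 ^ (0 + 1) - 1)).map (G 0) = [G 0 1] := rfl
        rw [this, g1]
      have l2 : (List.range' 0 (2 ^ (0 + 1))).map (T 0) = [T 0 0, T 0 1] := rfl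
      rw [l1, l2]
      simp only [List.all_cons, List.all_nil, Bool.and_true, Bool.and_eq_true] at hgood
      cases T 0 0 <;> cases T 0 1 <;> simp [hgood.1.1, hgood.1.2, hgood.2.1, hgood.2.2]
  have fin : ∀ d' < 6, ∀ k', k' < 2 ^ (d' + 1) → T d' k' = true →
      (¬ ∃ u w : ℤ, A (2 ^ (d' + 1) * M + (2 * k' + 1)) = u ^ 2 + w ^ 2) →
      ∃ d ≤ 6, ∃ x, 2 ^ d * M < x ∧ x < 2 ^ d * (M + 2) ∧ Wn x := by
    intro d' hd' k' hk' ht hs
    have e2 : 2 ^ (d' + 1) * (M + 2) = 2 ^ (d' + 1) * M + 2 * 2 ^ (d' + 1) := by ring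
    refine ⟨d' + 1, by omega, 2 ^ (d' + 1) * M + (2 * k' + 1), by omega, by omega, ?_, hs⟩
    have h1 := sg_odd (2 ^ d' * M + k')
    simp only [hT, decide_eq_true_eq] at ht
    rw [ht, show 2 * (2 ^ d' * M + k') + 1 = 2 ^ (d' + 1) * M + (2 * k' + 1) by ring] at h1
    intro hN
    simp [sg, hN] at h1
  have hdiv : ∀ d' < 6, ∀ k', k' < 2 ^ (d' + 1) → A (2 ^ (d' + 1) * M + (2 * k' + 1))
      = 3 ^ v * (A (2 ^ (d' + 1) * M + (2 * k' + 1)) / 3 ^ v) := by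
    intro d' hd' k' hk'
    have e2 : 2 ^ (d' + 1) * (M + 2) = 2 ^ (d' + 1) * M + 2 * 2 ^ (d' + 1) := by ring
    exact (Int.mul_ediv_cancel' (hZ (d' + 1) (by omega) _ (by omega) (by omega))).symm
  rcases Nat.even_or_odd' v with ⟨k, hv | hv⟩
  · obtain ⟨d', hd', k', hk', ht, hg⟩ := main goodE chkE
    refine fin d' hd' k' hk' ht ?_
    have e := hdiv d' hd' k' hk'
    simp only [hG, goodE, Bool.or_eq_true, Nat.beq_eq] at hg
    generalize A (2 ^ (d' + 1) * M + (2 * k' + 1)) / 3 ^ v = f at e hg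
    have h3 : (3 : ℤ) ∣ c ^ 5 * f := by omega
    have h3f : (3 : ℤ) ∣ f := by
      rcases (Int.prime_three.dvd_mul).1 h3 with h4 | h4
      · exact absurd (Int.prime_three.dvd_of_dvd_pow h4) hc3
      · exact h4
    refine not_sq_of_odd k _ ?_ ?_
    · obtain ⟨f', rfl⟩ := h3f
      exact ⟨f', by rw [e, hv]; ring⟩
    · rintro ⟨f', hf'⟩
      have h9 : f = 9 * f' := by
        apply mul_left_cancel₀ hq
        rw [← e, hf', hv]; ring
      have : c ^ 5 * f = 9 * (c ^ 5 * f') := by rw [h9]; ring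
      omega
  · obtain ⟨d', hd', k', hk', ht, hg⟩ := main goodO chkO
    refine fin d' hd' k' hk' ht ?_
    have e := hdiv d' hd' k' hk'
    have hg' : ¬ (G (d' + 1) (2 * k' + 1) % 3 = 0) := by
      intro h0
      simp [goodO, h0] at hg
    simp only [hG] at hg'
    generalize A (2 ^ (d' + 1) * M + (2 * k' + 1)) / 3 ^ v = f at e hg'
    refine not_sq_of_odd k _ ⟨f, by rw [e, hv]⟩ ?_
    rintro ⟨f', hf'⟩
    have h9 : f = 3 * f' := by
      apply mul_left_cancel₀ hq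
      rw [← e, hf', hv]; ring
    have : c ^ 5 * f = 3 * (c ^ 5 * f') := by rw [h9]; ring
    omega

end Pool.Agent.MP_d42cd1_nt.H97
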